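import Pool.Agent.Work.MP_91c91a_lc.Pad

set_option autoImplicit false

namespace Pool.Agent.Work.MP_91c91a_lc

open Finset

/-- the explicit upper bound -/
def ub (k m l : ℕ) : ℕ :=
  (2 * m + 1) * k ^ 2 * 2 ^ l + (k ^ 2 * ((2 * m + 1) / l + 1) * (2 * m + 1) + (2 * m + 1) * k)

theorem vals_le (k m l : ℕ) (hl : 0 < l) {t : ℕ} (ht : t ∈ vals k m) : t ≤ ub k m l := by
  obtain ⟨Γ, S, _, _, h, L, rfl, hL, rfl, rfl⟩ := ht
  exact tc_invMor_le h L (exists_FA_of_regular hL) l hl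

theorem bddAbove_vals (k m : ℕ) : BddAbove (vals k m) :=
  ⟨ub k m 1, fun _ ht => vals_le k m 1 one_pos ht⟩

/-- automaton without transitions -/
def eFA : FA Empty := ⟨Unit, inferInstance, (), ∅, ∅⟩

theorem tc_eFA : tc eFA.lang = 0 := Nat.le_zero.1 ((tc_le eFA).trans_eq Finset.card_empty)

theorem vals_nonempty (k m : ℕ) : (vals k m).Nonempty := by
  rcases Nat.eq_zero_or_pos m with rfl | hm
  · exact ⟨_, Fin k, Empty, inferInstance, inferInstance, 1, eFA.lang, Fintype.card_fin k,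
      eFA.isRegular, tc_eFA, rfl⟩
  · obtain ⟨L', ⟨B, hB⟩, h1, -⟩ := exists_pad eFA.lang ⟨eFA, rfl⟩ m (by rw [tc_eFA]; omega)
    exact ⟨_, Fin k, Empty ⊕ Fin m, inferInstance, inferInstance, 1, L', Fintype.card_fin k,
      hB ▸ B.isRegular, h1, rfl⟩

/-- `g k m` really is a maximum. -/
theorem isGreatest_g (k m : ℕ) : IsGreatest (vals k m) (g k m) := by
  refine ⟨Nat.sSup_mem (vals_nonempty k m) (bddAbove_vals k m), ?_⟩
  intro t ht
  exact le_csSup (bddAbove_vals k m) ht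

theorem g_le (k m l : ℕ) (hl : 0 < l) : g k m ≤ ub k m l := vals_le k m l hl (isGreatest_g k m).1

theorem tc_restrict {Γ Γ₂ : Type} (ι : Γ₂ → Γ) (hι : Function.Injective ι) (L : Language Γ)
    (hL : ∃ A : FA Γ, A.lang = L) (L₂ : Language Γ₂) (h : ∀ w : List Γ₂, w ∈ L₂ ↔ w.map ι ∈ L) :
    tc L₂ ≤ tc L := by
  classical
  obtain ⟨A, hA, hc⟩ := exists_tc hL
  let e : A.Q × Γ₂ × A.Q → A.Q × Γ × A.Q := fun t => (t.1, ι t.2.1, t.2.2)
  have he : Function.Injective e := by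
    rintro ⟨p, a, q⟩ ⟨p', a', q'⟩ h
    simp only [e, Prod.mk.injEq] at h
    obtain ⟨rfl, h2, rfl⟩ := h
    rw [hι h2]
  let B : FA Γ₂ := ⟨A.Q, A.finQ, A.start, A.accept, A.δ.preimage e he.injOn⟩
  have hT : ∀ p a q, B.T p a q ↔ A.T p (ι a) q := by
    intro p a q
    change (p, a, q) ∈ A.δ.preimage e he.injOn ↔ _
    rw [mem_preimage]
    rfl
  have hp : ∀ (w : List Γ₂) (p q : A.Q), RPath B.T p w q ↔ RPath A.T p (w.map ι) q := by
    intro w
    induction w with
    | nil => intro p q; exact Iff.rfl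
    | cons a w ih =>
      intro p q
      rw [List.map_cons, RPath_cons, RPath_cons]
      constructor
      · rintro ⟨r, h1, h2⟩; exact ⟨r, (hT _ _ _).1 h1, (ih _ _).1 h2⟩
      · rintro ⟨r, h1, h2⟩; exact ⟨r, (hT _ _ _).2 h1, (ih _ _).2 h2⟩
  have hlang : B.lang = L₂ := by
    ext w
    rw [h, ← hA]
    constructor
    · rintro ⟨q, hq, h1⟩; exact ⟨q, hq, (hp _ _ _).1 h1⟩
    · rintro ⟨q, hq, h1⟩; exact ⟨q, hq, (hp _ _ _).2 h1⟩
  rw [← hc]
  refine (tc_le_of_eq B hlang).trans ?_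
  change (A.δ.preimage e he.injOn).card ≤ A.δ.card
  apply card_le_card_of_injOn e _ he.injOn
  intro t ht
  have ht' : t ∈ A.δ.preimage e he.injOn := ht
  rw [mem_preimage] at ht'
  exact ht'

theorem le_g_of_bool (k m : ℕ) (hk : 2 ≤ k) {S : Type} [Fintype S]
    (h₂ : FreeMonoid Bool →* FreeMonoid S) (L : Language S) (hL : ∃ A : FA S, A.lang = L)
    (hm : 2 * tc L + 1 ≤ m) : tc (invMor h₂ L) ≤ g k m := by
  classical
  obtain ⟨L', hL', h1, h2⟩ := exists_pad L hL m hm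
  let i0 : Fin k := ⟨0, by omega⟩
  let i1 : Fin k := ⟨1, by omega⟩
  have h01 : i1 ≠ i0 := by
    intro h; have := congrArg Fin.val h
    change 1 = 0 at this; omega
  let ι : Bool → Fin k := fun b => if b then i1 else i0
  have hι : Function.Injective ι := by
    intro a b hab
    cases a <;> cases b
    · rfl
    · exact absurd hab.symm h01
    · exact absurd hab h01
    · rfl
  let h₃ : FreeMonoid Bool →* FreeMonoid (S ⊕ Fin m) := (FreeMonoid.map Sum.inl).comp h₂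
  let H : FreeMonoid (Fin k) →* FreeMonoid (S ⊕ Fin m) := FreeMonoid.lift
    (fun x => if x = i0 then h₃ (FreeMonoid.of false) else
      if x = i1 then h₃ (FreeMonoid.of true) else 1)
  have hH : H.comp (FreeMonoid.map ι) = h₃ := by
    apply FreeMonoid.hom_eq
    intro b
    rw [MonoidHom.comp_apply, FreeMonoid.map_of]
    change FreeMonoid.lift _ _ = _
    rw [FreeMonoid.lift_eval_of]
    cases b
    · simp [ι]
    · simp [ι, h01]
  have h4 : tc (invMor h₂ L) ≤ tc (invMor H L') := by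
    apply tc_restrict ι hι (invMor H L') (exists_FA_invMor H L' hL')
    intro w
    rw [mem_invMor, mem_invMor]
    have h5 : H (FreeMonoid.ofList (w.map ι)) = h₃ (FreeMonoid.ofList w) := by
      rw [← hH, MonoidHom.comp_apply, FreeMonoid.ofList_map]
    rw [h5]
    change _ ↔ (FreeMonoid.map Sum.inl (h₂ (FreeMonoid.ofList w))).toList ∈ L'
    rw [FreeMonoid.toList_map, h2]
  refine h4.trans ((isGreatest_g k m).2 ?_)
  obtain ⟨B, hB⟩ := hL'
  exact ⟨Fin k, S ⊕ Fin m, inferInstance, inferInstance, H, L', Fintype.card_fin k,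
    hB ▸ B.isRegular, h1, rfl⟩

/-- combinatorial form of the lower bound -/
theorem lower (k m n : ℕ) (hk : 2 ≤ k) (hn : 0 < n) (hm : 2 * (6 * n + 1) + 1 ≤ m) :
    2 ^ (n * n) ≤ (2 * g k m + 1) * (2 ^ (2 * g k m + 1) *
      ((2 * g k m + 1) * (2 * (2 * g k m + 1)) + 1) ^ g k m) := by
  have : NeZero n := ⟨hn.ne'⟩
  apply count_bound n
  intro N
  apply le_g_of_bool k m hk _ _ ⟨_, rfl⟩
  have h1 : tc (mach n).lang ≤ 6 * n + 1 := (tc_le (mach n)).trans (card_mδ n)
  omega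

end Pool.Agent.Work.MP_91c91a_lc
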