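import Pool.Agent.Work.MP_91c91a_lc.Vals

set_option autoImplicit false

namespace Pool.Agent.Work.MP_91c91a_lc

open Filter Asymptotics

theorem ub_real (k n : ℕ) (hn : 3 ≤ n) :
    ((n * k ^ 2 * 2 ^ (Nat.log 2 n / 2 + 1) +
      (k ^ 2 * (n / (Nat.log 2 n / 2 + 1) + 1) * n + n * k) : ℕ) : ℝ) ≤
      8 * (k : ℝ) ^ 2 * ((n : ℝ) ^ 2 / Real.log n) := by
  set l := Nat.log 2 n / 2 + 1 with hl
  have hn0 : (0 : ℝ) < n := by exact_mod_cast (by omega : 0 < n)
  have hn3 : (3 : ℝ) ≤ n := by exact_mod_cast hn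
  have hlog1 : 1 < Real.log n := by
    have h1 : Real.exp 1 < 3 := by have := Real.exp_one_lt_d9; linarith
    rw [Real.lt_log_iff_exp_lt hn0]
    linarith
  have hlog0 : 0 < Real.log n := by linarith
  -- 2 ^ l ≤ 2 √n
  have h1 : (2 : ℝ) ^ l ≤ 2 * Real.sqrt n := by
    rw [hl, pow_succ, mul_comm]
    apply mul_le_mul_of_nonneg_left _ (by norm_num)
    apply Real.le_sqrt_of_sq_le
    rw [← pow_mul]
    calc (2 : ℝ) ^ (Nat.log 2 n / 2 * 2) ≤ 2 ^ (Nat.log 2 n) :=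
          pow_le_pow_right₀ (by norm_num) (Nat.div_mul_le_self _ _)
      _ ≤ n := by exact_mod_cast Nat.pow_log_le_self 2 (by omega)
  -- l ≥ log n / 2
  have h2 : Real.log n / 2 ≤ l := by
    have h3 : Real.log n ≤ (Nat.log 2 n + 1 : ℕ) := by
      have h4 : (n : ℝ) ≤ 2 ^ (Nat.log 2 n + 1) := by
        exact_mod_cast (Nat.lt_pow_succ_log_self (by norm_num) n).le
      have h5 := Real.log_le_log hn0 h4
      rw [Real.log_pow] at h5
      have h6 : Real.log 2 ≤ 1 := by have := Real.log_two_lt_d9; linarith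
      have h7 : (0 : ℝ) ≤ (Nat.log 2 n + 1 : ℕ) := Nat.cast_nonneg _
      calc Real.log n ≤ _ := h5
        _ ≤ (Nat.log 2 n + 1 : ℕ) * 1 := mul_le_mul_of_nonneg_left h6 h7
        _ = _ := mul_one _
    have h8 : ((Nat.log 2 n + 1 : ℕ) : ℝ) ≤ 2 * (l : ℝ) := by
      have : Nat.log 2 n + 1 ≤ 2 * l := by omega
      exact_mod_cast this
    linarith
  have hl0 : (0 : ℝ) < l := by linarith
  have h3 : ((n / l : ℕ) : ℝ) ≤ 2 * (n / Real.log n) := by
    calc ((n / l : ℕ) : ℝ) ≤ (n : ℝ) / l := Nat.cast_div_le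
      _ ≤ n / (Real.log n / 2) := div_le_div_of_nonneg_left hn0.le (by linarith) h2
      _ = 2 * (n / Real.log n) := by field_simp
  have hsq : 0 < Real.sqrt n := Real.sqrt_pos.2 hn0
  have hss : Real.sqrt n * Real.sqrt n = n := Real.mul_self_sqrt hn0.le
  have h4 : Real.sqrt n ≤ 2 * (n / Real.log n) := by
    have h5 : Real.log n ≤ 2 * Real.sqrt n := by
      have h6 := Real.log_le_sub_one_of_pos hsq
      have h7 : Real.log (Real.sqrt n) = Real.log n / 2 := Real.log_sqrt hn0.le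
      linarith
    rw [← mul_div_assoc, le_div_iff₀ hlog0]
    nlinarith
  have h5 : 1 ≤ n / Real.log n := by
    rw [le_div_iff₀ hlog0, one_mul]
    have := Real.log_le_sub_one_of_pos hn0
    linarith
  have hk : (k : ℝ) ≤ (k : ℝ) ^ 2 := by
    have : k ≤ k ^ 2 := Nat.le_self_pow (by norm_num) k
    exact_mod_cast this
  have hk0 : (0 : ℝ) ≤ (k : ℝ) ^ 2 := by positivity
  set X := (n : ℝ) / Real.log n with hX
  push_cast
  have e1 : (n : ℝ) * k ^ 2 * 2 ^ l ≤ (n : ℝ) * k ^ 2 * (4 * X) := by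
    apply mul_le_mul_of_nonneg_left _ (by positivity)
    linarith
  have e2 : (k : ℝ) ^ 2 * (((n / l : ℕ) : ℝ) + 1) * n ≤ (k : ℝ) ^ 2 * (3 * X) * n := by
    apply mul_le_mul_of_nonneg_right _ hn0.le
    apply mul_le_mul_of_nonneg_left _ hk0
    linarith
  have e3 : (n : ℝ) * k ≤ n * k ^ 2 * X := by
    calc (n : ℝ) * k ≤ n * k ^ 2 := mul_le_mul_of_nonneg_left hk hn0.le
      _ = n * k ^ 2 * 1 := (mul_one _).symm
      _ ≤ _ := mul_le_mul_of_nonneg_left h5 (by positivity)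
  have e4 : (n : ℝ) ^ 2 / Real.log n = n * X := by rw [hX]; ring
  rw [e4]
  have e5 : (n : ℝ) * k ^ 2 * (4 * X) + ((k : ℝ) ^ 2 * (3 * X) * n + n * k ^ 2 * X) =
    8 * (k : ℝ) ^ 2 * (n * X) := by ring
  rw [← e5]
  exact add_le_add e1 (add_le_add e2 e3)

theorem g_upper (k m : ℕ) (hm : 2 ≤ m) :
    (g k m : ℝ) ≤ 72 * (k : ℝ) ^ 2 * ((m : ℝ) ^ 2 / Real.log m) := by
  have h1 := g_le k m (Nat.log 2 (2 * m + 1) / 2 + 1) (Nat.succ_pos _)
  have h2 := ub_real k (2 * m + 1) (by omega)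
  have h3 : (g k m : ℝ) ≤ 8 * (k : ℝ) ^ 2 *
      (((2 * m + 1 : ℕ) : ℝ) ^ 2 / Real.log ((2 * m + 1 : ℕ) : ℝ)) := by
    refine le_trans ?_ h2
    exact_mod_cast h1
  refine h3.trans ?_
  have hm0 : (0 : ℝ) < m := by exact_mod_cast (by omega : 0 < m)
  have hm1 : (1 : ℝ) < m := by exact_mod_cast (by omega : 1 < m)
  have hlog : 0 < Real.log m := Real.log_pos hm1
  have h4 : Real.log m ≤ Real.log ((2 * m + 1 : ℕ) : ℝ) := by
    apply Real.log_le_log hm0
    exact_mod_cast (by omega : m ≤ 2 * m + 1)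
  have h5 : (((2 * m + 1 : ℕ) : ℝ)) ^ 2 ≤ 9 * (m : ℝ) ^ 2 := by
    have : (((2 * m + 1 : ℕ) : ℝ)) ≤ 3 * m := by exact_mod_cast (by omega : 2 * m + 1 ≤ 3 * m)
    have h0 : (0 : ℝ) ≤ ((2 * m + 1 : ℕ) : ℝ) := Nat.cast_nonneg _
    nlinarith
  have h6 : ((2 * m + 1 : ℕ) : ℝ) ^ 2 / Real.log ((2 * m + 1 : ℕ) : ℝ) ≤
      9 * (m : ℝ) ^ 2 / Real.log m := by
    apply div_le_div₀ (by positivity) h5 hlog h4
  calc 8 * (k : ℝ) ^ 2 * (((2 * m + 1 : ℕ) : ℝ) ^ 2 / Real.log ((2 * m + 1 : ℕ) : ℝ))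
      ≤ 8 * (k : ℝ) ^ 2 * (9 * (m : ℝ) ^ 2 / Real.log m) :=
        mul_le_mul_of_nonneg_left h6 (by positivity)
    _ = 72 * (k : ℝ) ^ 2 * ((m : ℝ) ^ 2 / Real.log m) := by ring

theorem count_real (n t : ℕ) (hn : 3 ≤ n)
    (h : 2 ^ (n * n) ≤ (2 * t + 1) * (2 ^ (2 * t + 1) *
      ((2 * t + 1) * (2 * (2 * t + 1)) + 1) ^ t)) :
    (1 / 26 : ℝ) * ((n : ℝ) ^ 2 / Real.log n) ≤ t := by
  have hn0 : (0 : ℝ) < n := by exact_mod_cast (by omega : 0 < n)
  have hn3 : (3 : ℝ) ≤ n := by exact_mod_cast hn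
  have hlog1 : 1 < Real.log n := by
    have h1 : Real.exp 1 < 3 := by have := Real.exp_one_lt_d9; linarith
    rw [Real.lt_log_iff_exp_lt hn0]
    linarith
  have hlog0 : 0 < Real.log n := by linarith
  rw [← mul_div_assoc, div_le_iff₀ hlog0]
  rcases Nat.eq_zero_or_pos t with rfl | ht
  · exfalso
    have h9 : 2 ^ 9 ≤ 2 ^ (n * n) := Nat.pow_le_pow_right (by norm_num) (by nlinarith)
    have h10 := h9.trans h
    norm_num at h10
  have ht1 : (1 : ℝ) ≤ t := by exact_mod_cast ht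
  by_cases htn : n * n ≤ t
  · have : (n : ℝ) * n ≤ t := by exact_mod_cast htn
    nlinarith
  · rw [not_le] at htn
    have htn' : (t : ℝ) ≤ n ^ 2 := by
      have : t ≤ n ^ 2 := by rw [pow_two]; exact htn.le
      exact_mod_cast this
    have hR : (2 : ℝ) ^ (n * n) ≤ (2 * (t : ℝ) + 1) * (2 ^ (2 * t + 1) *
      ((2 * (t : ℝ) + 1) * (2 * (2 * (t : ℝ) + 1)) + 1) ^ t) := by exact_mod_cast h
    have h1 := Real.log_le_log (by positivity) hR
    have hp1 : (2 * (t : ℝ) + 1) ≠ 0 := by positivity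
    have hp2 : ((2 : ℝ) ^ (2 * t + 1)) ≠ 0 := by positivity
    have hp3 : (((2 * (t : ℝ) + 1) * (2 * (2 * (t : ℝ) + 1)) + 1) ^ t) ≠ 0 := by positivity
    rw [Real.log_mul hp1 (mul_ne_zero hp2 hp3), Real.log_mul hp2 hp3, Real.log_pow, Real.log_pow,
      Real.log_pow] at h1
    have hl2a : Real.log 2 ≤ 1 := by have := Real.log_two_lt_d9; linarith
    have hl2b : (1 / 2 : ℝ) ≤ Real.log 2 := by have := Real.log_two_gt_d9; linarith
    -- first term
    have b1 : Real.log (2 * (t : ℝ) + 1) ≤ 3 * Real.log n := by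
      have : Real.log ((n : ℝ) ^ 3) = 3 * Real.log n := by rw [Real.log_pow]; norm_num
      rw [← this]
      apply Real.log_le_log (by positivity)
      nlinarith
    have b2 : Real.log ((2 * (t : ℝ) + 1) * (2 * (2 * (t : ℝ) + 1)) + 1) ≤ 7 * Real.log n := by
      have : Real.log ((n : ℝ) ^ 7) = 7 * Real.log n := by rw [Real.log_pow]; norm_num
      rw [← this]
      apply Real.log_le_log (by positivity)
      have c1 : (2 * (t : ℝ) + 1) ≤ 3 * n ^ 2 := by nlinarith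
      have c2 : (2 * (t : ℝ) + 1) * (2 * (2 * (t : ℝ) + 1)) + 1 ≤ 18 * (n : ℝ) ^ 4 + 1 := by
        have : (2 * (t : ℝ) + 1) * (2 * (t : ℝ) + 1) ≤ (3 * (n : ℝ) ^ 2) * (3 * (n : ℝ) ^ 2) :=
          mul_le_mul c1 c1 (by positivity) (by positivity)
        nlinarith
      have c3 : (1 : ℝ) ≤ (n : ℝ) ^ 4 := one_le_pow₀ (by linarith)
      have c4 : (27 : ℝ) ≤ (n : ℝ) ^ 3 := by
        have : (3 : ℝ) ^ 3 ≤ (n : ℝ) ^ 3 := pow_le_pow_left₀ (by norm_num) hn3 3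
        linarith
      have c5 : (n : ℝ) ^ 7 = (n : ℝ) ^ 3 * (n : ℝ) ^ 4 := by ring
      rw [c5]
      nlinarith
    push_cast at h1
    have d1 : (n : ℝ) * n * (1 / 2) ≤ n * n * Real.log 2 :=
      mul_le_mul_of_nonneg_left hl2b (by positivity)
    have d2 : (2 * (t : ℝ) + 1) * Real.log 2 ≤ 3 * t * Real.log n := by
      calc (2 * (t : ℝ) + 1) * Real.log 2 ≤ (2 * (t : ℝ) + 1) * 1 :=
            mul_le_mul_of_nonneg_left hl2a (by positivity)
        _ ≤ 3 * t * 1 := by nlinarith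
        _ ≤ 3 * t * Real.log n := mul_le_mul_of_nonneg_left hlog1.le (by positivity)
    have d3 : (t : ℝ) * Real.log ((2 * (t : ℝ) + 1) * (2 * (2 * (t : ℝ) + 1)) + 1) ≤
        t * (7 * Real.log n) := mul_le_mul_of_nonneg_left b2 (by positivity)
    have d4 : 3 * Real.log n ≤ 3 * t * Real.log n := by nlinarith
    nlinarith

theorem g_lower (k m : ℕ) (hk : 2 ≤ k) (hm : 100 ≤ m) :
    (1 / 20000 : ℝ) * ((m : ℝ) ^ 2 / Real.log m) ≤ g k m := by
  have h1 := lower k m ((m - 3) / 12) hk (by omega) (by omega)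
  have h2 := count_real ((m - 3) / 12) (g k m) (by omega) h1
  refine le_trans ?_ h2
  set n := (m - 3) / 12 with hn
  have hnm : m ≤ 24 * n := by omega
  have hnm2 : n ≤ m := by omega
  have hn3 : 3 ≤ n := by omega
  have hm0 : (0 : ℝ) < m := by exact_mod_cast (by omega : 0 < m)
  have hn0 : (1 : ℝ) < n := by exact_mod_cast (by omega : 1 < n)
  have hlogn : 0 < Real.log n := Real.log_pos hn0
  have hlog : Real.log n ≤ Real.log m := Real.log_le_log (by linarith) (by exact_mod_cast hnm2)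
  have h3 : (m : ℝ) ≤ 24 * n := by exact_mod_cast hnm
  have h4 : (m : ℝ) ^ 2 ≤ 576 * (n : ℝ) ^ 2 := by nlinarith
  have h5 : (m : ℝ) ^ 2 / Real.log m ≤ 576 * (n : ℝ) ^ 2 / Real.log n :=
    div_le_div₀ (by positivity) h4 hlogn hlog
  have h6 : 0 ≤ (n : ℝ) ^ 2 / Real.log n := by positivity
  have h7 : 576 * (n : ℝ) ^ 2 / Real.log n = 576 * ((n : ℝ) ^ 2 / Real.log n) := by ring
  rw [h7] at h5
  nlinarith

theorem g_theta (k : ℕ) (hk : 2 ≤ k) :
    (fun m : ℕ => (g k m : ℝ)) =Θ[atTop] fun m : ℕ => (m : ℝ) ^ 2 / Real.log m := by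
  constructor
  · apply IsBigO.of_bound (72 * (k : ℝ) ^ 2)
    filter_upwards [eventually_ge_atTop 2] with m hm
    rw [Real.norm_of_nonneg (Nat.cast_nonneg _)]
    refine (g_upper k m hm).trans ?_
    exact mul_le_mul_of_nonneg_left (Real.le_norm_self _) (by positivity)
  · apply IsBigO.of_bound 20000
    filter_upwards [eventually_ge_atTop 100] with m hm
    have h1 := g_lower k m hk hm
    have hm1 : (1 : ℝ) < m := by exact_mod_cast (by omega : 1 < m)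
    have hlog : 0 < Real.log m := Real.log_pos hm1
    rw [Real.norm_of_nonneg (Nat.cast_nonneg _), Real.norm_of_nonneg (by positivity)]
    linarith

end Pool.Agent.Work.MP_91c91a_lc
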