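import Mathlib

set_option autoImplicit false

namespace Pool.Agent.Work.MP_91c91a_lc

/-- Paths of a labelled transition relation. -/
def RPath {Q α : Type} (T : Q → α → Q → Prop) : Q → List α → Q → Prop
  | p, [], q => p = q
  | p, a :: w, q => ∃ r, T p a r ∧ RPath T r w q

@[simp] theorem RPath_nil {Q α : Type} (T : Q → α → Q → Prop) (p q : Q) :
    RPath T p [] q ↔ p = q := Iff.rfl

@[simp] theorem RPath_cons {Q α : Type} (T : Q → α → Q → Prop) (p q : Q) (a : α) (w : List α) :
    RPath T p (a :: w) q ↔ ∃ r, T p a r ∧ RPath T r w q := Iff.rfl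

theorem RPath_append {Q α : Type} (T : Q → α → Q → Prop) (u v : List α) :
    ∀ p q : Q, RPath T p (u ++ v) q ↔ ∃ r, RPath T p u r ∧ RPath T r v q := by
  induction u with
  | nil => intro p q; simp
  | cons a u ih =>
    intro p q
    simp only [List.cons_append, RPath_cons, ih]
    constructor
    · rintro ⟨r, h1, s, h2, h3⟩; exact ⟨s, ⟨r, h1, h2⟩, h3⟩
    · rintro ⟨s, ⟨r, h1, h2⟩, h3⟩; exact ⟨r, h1, s, h2, h3⟩

/-- A nondeterministic finite automaton over the alphabet `α` : finitely many states, one start
state, a set of accepting states, and a finite set of transitions; no epsilon transitions. -/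
structure FA (α : Type) where
  /-- the states -/
  Q : Type
  /-- finiteness of the set of states -/
  finQ : Finite Q
  /-- the start state -/
  start : Q
  /-- the accepting states -/
  accept : Set Q
  /-- the transitions -/
  δ : Finset (Q × α × Q)

/-- The transition relation of an automaton. -/
def FA.T {α : Type} (A : FA α) : A.Q → α → A.Q → Prop := fun p a q => (p, a, q) ∈ A.δ

/-- The language recognised by an automaton. -/
def FA.lang {α : Type} (A : FA α) : Language α :=
  {w | ∃ q ∈ A.accept, RPath A.T A.start w q}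

theorem FA.mem_lang {α : Type} (A : FA α) (w : List α) :
    w ∈ A.lang ↔ ∃ q ∈ A.accept, RPath A.T A.start w q := Iff.rfl

/-- Nondeterministic transition complexity of a language. -/
noncomputable def tc {α : Type} (L : Language α) : ℕ :=
  sInf {t | ∃ A : FA α, A.lang = L ∧ A.δ.card = t}

/-- The inverse image `h⁻¹ (L)` of a language under a monoid morphism between free monoids
(erasing morphisms are allowed). -/
def invMor {Γ S : Type} (h : FreeMonoid Γ →* FreeMonoid S) (L : Language S) : Language Γ :=
  {w | (h (FreeMonoid.ofList w)).toList ∈ L}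

/-- The set of all values `tc (h⁻¹ (L))` with finite alphabets `Γ`, `S`, `|Γ| = k`, a morphism
`h` from words over `Γ` to words over `S` and a regular language `L` over `S` with `tc (L) = m`. -/
def vals (k m : ℕ) : Set ℕ :=
  {t | ∃ (Γ S : Type) (_ : Fintype Γ) (_ : Fintype S) (h : FreeMonoid Γ →* FreeMonoid S)
    (L : Language S), Fintype.card Γ = k ∧ L.IsRegular ∧ tc L = m ∧ tc (invMor h L) = t}

/-- `g k m` is the largest value of `tc (h⁻¹ (L))` with `|Γ| = k` and `tc (L) = m`. -/
noncomputable def g (k m : ℕ) : ℕ := sSup (vals k m)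

theorem tc_le {α : Type} (A : FA α) : tc A.lang ≤ A.δ.card :=
  Nat.sInf_le ⟨A, rfl, rfl⟩

theorem tc_le_of_eq {α : Type} {L : Language α} (A : FA α) (h : A.lang = L) :
    tc L ≤ A.δ.card := h ▸ tc_le A

theorem exists_tc {α : Type} {L : Language α} (h : ∃ A : FA α, A.lang = L) :
    ∃ A : FA α, A.lang = L ∧ A.δ.card = tc L := by
  obtain ⟨A, hA⟩ := h
  have : ({t | ∃ A : FA α, A.lang = L ∧ A.δ.card = t} : Set ℕ).Nonempty := ⟨_, A, hA, rfl⟩
  exact Nat.sInf_mem this

/-- A regular language over a finite alphabet has an automaton. -/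
theorem exists_FA_of_regular {α : Type} [Fintype α] {L : Language α} (h : L.IsRegular) :
    ∃ A : FA α, A.lang = L := by
  classical
  obtain ⟨σ, hσ, M, hM⟩ := h
  refine ⟨⟨σ, inferInstance, M.start, M.accept,
    (Finset.univ : Finset (σ × α)).image (fun p => (p.1, p.2, M.step p.1 p.2))⟩, ?_⟩
  rw [← hM]
  ext w
  have key : ∀ (w : List α) (p q : σ),
      RPath (fun (p : σ) (a : α) (q : σ) => (p, a, q) ∈
        (Finset.univ : Finset (σ × α)).image (fun p => (p.1, p.2, M.step p.1 p.2))) p w q ↔
      M.evalFrom p w = q := by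
    intro w
    induction w with
    | nil => intro p q; simp
    | cons a w ih =>
      intro p q
      rw [RPath_cons]
      constructor
      · rintro ⟨r, h1, h2⟩
        rw [ih] at h2
        simp only [Finset.mem_image, Finset.mem_univ, true_and, Prod.mk.injEq] at h1
        obtain ⟨⟨x, y⟩, h3, h4, h5⟩ := h1
        simp only at h3 h4 h5
        subst h3; subst h4
        rw [DFA.evalFrom_cons]
        rw [h5]; exact h2
      · intro h
        refine ⟨M.step p a, ?_, ?_⟩
        · simp only [Finset.mem_image, Finset.mem_univ, true_and, Prod.mk.injEq]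
          exact ⟨(p, a), rfl, rfl, rfl⟩
        · rw [ih]; rw [DFA.evalFrom_cons] at h; exact h
  constructor
  · rintro ⟨q, hq, hp⟩
    have := (key w M.start q).1 hp
    change M.evalFrom M.start w ∈ M.accept
    rw [this]; exact hq
  · intro hw
    exact ⟨M.evalFrom M.start w, hw, (key w M.start _).2 rfl⟩

/-- The language of an automaton is regular. -/
theorem FA.isRegular {α : Type} (A : FA α) : A.lang.IsRegular := by
  classical
  have := A.finQ
  let M : NFA α A.Q := ⟨fun p a => {q | A.T p a q}, {A.start}, A.accept⟩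
  have : Fintype A.Q := Fintype.ofFinite _
  refine ⟨Set A.Q, inferInstance, M.toDFA, ?_⟩
  rw [NFA.toDFA_correct]
  have key : ∀ (w : List α) (S : Set A.Q) (q : A.Q),
      q ∈ M.evalFrom S w ↔ ∃ p ∈ S, RPath A.T p w q := by
    intro w
    induction w with
    | nil => intro S q; simp
    | cons a w ih =>
      intro S q
      rw [NFA.evalFrom_cons, ih]
      constructor
      · rintro ⟨p, hp, hpq⟩
        rw [NFA.mem_stepSet] at hp
        obtain ⟨s, hs, hps⟩ := hp
        exact ⟨s, hs, p, hps, hpq⟩
      · rintro ⟨s, hs, p, hps, hpq⟩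
        refine ⟨p, ?_, hpq⟩
        rw [NFA.mem_stepSet]
        exact ⟨s, hs, hps⟩
  ext w
  rw [NFA.mem_accepts]
  constructor
  · rintro ⟨q, hq, hp⟩
    rw [key] at hp
    obtain ⟨p, hp1, hp2⟩ := hp
    have : p = A.start := hp1
    subst this
    exact ⟨q, hq, hp2⟩
  · rintro ⟨q, hq, hp⟩
    refine ⟨q, hq, ?_⟩
    rw [key]
    exact ⟨A.start, rfl, hp⟩

end Pool.Agent.Work.MP_91c91a_lc
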