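import Pool.Agent.Work.MP_91c91a_lc.Machine

set_option autoImplicit false

namespace Pool.Agent.Work.MP_91c91a_lc

open Finset

/-- codes of automata with at most `t` transitions over a two letter alphabet -/
abbrev Code (t : ℕ) : Type :=
  Fin (2 * t + 1) × Finset (Fin (2 * t + 1)) ×
    (Fin t → Option (Fin (2 * t + 1) × Bool × Fin (2 * t + 1)))

/-- language of a code -/
def Code.lang {t : ℕ} (c : Code t) : Language Bool :=
  {w | ∃ f ∈ c.2.1, RPath (fun x a y => ∃ i, c.2.2 i = some (x, a, y)) c.1 w f}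

theorem exists_code {L : Language Bool} (hL : ∃ A : FA Bool, A.lang = L) (t : ℕ) (ht : tc L ≤ t) :
    ∃ c : Code t, c.lang = L := by
  classical
  obtain ⟨A, hA, hc⟩ := exists_tc hL
  rw [← hc] at ht
  obtain ⟨e, he⟩ := A.exists_embed t ht
  let D : Finset (Fin (2 * t + 1) × Bool × Fin (2 * t + 1)) :=
    A.δ.image (fun p => (e p.1, p.2.1, e p.2.2))
  have hD : D.card ≤ t := card_image_le.trans ht
  let l := D.toList
  have hl : l.length ≤ t := by rw [Finset.length_toList]; exact hD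
  refine ⟨(e A.start, univ.filter (fun x => ∃ q ∈ A.used, q ∈ A.accept ∧ e q = x),
    fun i => l[i.1]?), ?_⟩
  have hT : ∀ x a y, (∃ i : Fin t, l[i.1]? = some (x, a, y)) ↔
      ∃ p q, A.T p a q ∧ e p = x ∧ e q = y := by
    intro x a y
    have h1 : (∃ i : Fin t, l[i.1]? = some (x, a, y)) ↔ (x, a, y) ∈ l := by
      rw [List.mem_iff_getElem?]
      constructor
      · rintro ⟨i, hi⟩; exact ⟨i.1, hi⟩
      · rintro ⟨i, hi⟩
        have h2 : i < l.length := by
          rw [List.getElem?_eq_some_iff] at hi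
          exact hi.1
        exact ⟨⟨i, lt_of_lt_of_le h2 hl⟩, hi⟩
    rw [h1, Finset.mem_toList, mem_image]
    constructor
    · rintro ⟨⟨p, b, q⟩, h, h2⟩
      simp only [Prod.mk.injEq] at h2
      obtain ⟨h3, h4, h5⟩ := h2
      subst h4
      exact ⟨p, q, h, h3, h5⟩
    · rintro ⟨p, q, h, h3, h5⟩
      exact ⟨(p, a, q), h, by rw [h3, h5]⟩
  rw [← hA]
  ext w
  rw [FA.mem_lang]
  have key := A.path_map e he _ hT w A.start A.start_mem_used
  constructor
  · rintro ⟨f, hf, hp⟩
    rw [mem_filter] at hf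
    obtain ⟨-, q, hq, hq2, rfl⟩ := hf
    obtain ⟨q', hq', h1, h2⟩ := (key _).1 hp
    have : q' = q := he hq' hq h1
    subst this
    exact ⟨q', hq2, h2⟩
  · rintro ⟨q, hq, hp⟩
    have hu := A.used_of_path _ _ _ A.start_mem_used hp
    refine ⟨e q, ?_, (key _).2 ⟨q, hu, rfl, hp⟩⟩
    rw [mem_filter]
    exact ⟨mem_univ _, q, hu, hq, rfl⟩

theorem exists_FA_invMor {Γ S : Type} [Fintype Γ] (h : FreeMonoid Γ →* FreeMonoid S)
    (L : Language S) (hL : ∃ A : FA S, A.lang = L) : ∃ A : FA Γ, A.lang = invMor h L := by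
  obtain ⟨A, hA⟩ := hL
  obtain ⟨T, s, F, hT⟩ := exists_indT A h
  subst hA
  refine ⟨sparse _ 1 one_pos T s F, ?_⟩
  rw [sparse_lang]
  exact hT.symm

theorem card_code (t : ℕ) : Fintype.card (Code t) =
    (2 * t + 1) * (2 ^ (2 * t + 1) * ((2 * t + 1) * (2 * (2 * t + 1)) + 1) ^ t) := by
  simp only [Code, Fintype.card_prod, Fintype.card_fin, Fintype.card_finset, Fintype.card_fun,
    Fintype.card_option, Fintype.card_bool]

theorem count_bound (n : ℕ) [NeZero n] (t : ℕ)
    (h : ∀ N, tc (invMor (hN n N) (mach n).lang) ≤ t) :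
    2 ^ (n * n) ≤
      (2 * t + 1) * (2 ^ (2 * t + 1) * ((2 * t + 1) * (2 * (2 * t + 1)) + 1) ^ t) := by
  classical
  have h1 : ∀ N, ∃ c : Code t, c.lang = invMor (hN n N) (mach n).lang := fun N =>
    exists_code (exists_FA_invMor _ _ ⟨_, rfl⟩) t (h N)
  choose c hc using h1
  have hinj : Function.Injective c := by
    intro N N' hNN
    apply invMor_inj n
    rw [← hc, ← hc, hNN]
  have h2 := Fintype.card_le_of_injective c hinj
  rw [card_code, Fintype.card_finset, Fintype.card_prod, ZMod.card] at h2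
  exact h2

end Pool.Agent.Work.MP_91c91a_lc
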