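import Pool.Agent.Work.MP_91c91a_lc.Preim

set_option autoImplicit false

namespace Pool.Agent.Work.MP_91c91a_lc

open Finset

section Machine

variable (n : ℕ) [NeZero n]

/-- states of the machine -/
abbrev MS (n : ℕ) : Type := Bool × ZMod n

/-- rotation of the first half by `k` -/
def rX (k : ZMod n) (p : MS n) : MS n := (p.1, if p.1 then p.2 else p.2 + k)

/-- rotation of the second half by `k` -/
def rY (k : ZMod n) (p : MS n) : MS n := (p.1, if p.1 then p.2 + k else p.2)

/-- transitions of the machine -/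
def mδ : Finset (MS n × Fin 3 × MS n) :=
  ((univ : Finset (MS n)).image (fun p => (p, 0, rX n 1 p)) ∪
    (univ : Finset (MS n)).image (fun p => (p, 1, rY n 1 p))) ∪
  ((univ : Finset (MS n)).image (fun p => (p, 2, p)) ∪ {((false, 0), 2, (true, 0))})

theorem card_mδ : (mδ n).card ≤ 6 * n + 1 := by
  unfold mδ
  have hc : (univ : Finset (MS n)).card = 2 * n := by
    rw [card_univ, Fintype.card_prod, Fintype.card_bool, ZMod.card]
  have h1 : ((univ : Finset (MS n)).image
    (fun p => ((p, 0, rX n 1 p) : MS n × Fin 3 × MS n))).card ≤ 2 * n := card_image_le.trans hc.le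
  have h2 : ((univ : Finset (MS n)).image
    (fun p => ((p, 1, rY n 1 p) : MS n × Fin 3 × MS n))).card ≤ 2 * n := card_image_le.trans hc.le
  have h3 : ((univ : Finset (MS n)).image
    (fun p => ((p, 2, p) : MS n × Fin 3 × MS n))).card ≤ 2 * n := card_image_le.trans hc.le
  refine (card_union_le _ _).trans ?_
  have h4 := card_union_le ((univ : Finset (MS n)).image
    (fun p => ((p, 0, rX n 1 p) : MS n × Fin 3 × MS n))) ((univ : Finset (MS n)).image
    (fun p => ((p, 1, rY n 1 p) : MS n × Fin 3 × MS n)))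
  have h5 := card_union_le ((univ : Finset (MS n)).image
    (fun p => ((p, 2, p) : MS n × Fin 3 × MS n))) {((false, 0), 2, (true, 0))}
  rw [card_singleton] at h5
  omega

/-- The machine. -/
def mach : FA (Fin 3) where
  Q := MS n
  finQ := inferInstance
  start := (false, 0)
  accept := {(true, 0)}
  δ := mδ n

theorem mem_mδ (t : MS n × Fin 3 × MS n) : t ∈ mδ n ↔
    ((∃ x : MS n, t = (x, 0, rX n 1 x)) ∨ (∃ x : MS n, t = (x, 1, rY n 1 x))) ∨
      ((∃ x : MS n, t = (x, 2, x)) ∨ t = ((false, 0), 2, (true, 0))) := by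
  unfold mδ
  rw [mem_union, mem_union, mem_union, mem_image, mem_image, mem_image, mem_singleton]
  constructor
  · rintro ((⟨x, -, h⟩ | ⟨x, -, h⟩) | (⟨x, -, h⟩ | h))
    · exact Or.inl (Or.inl ⟨x, h.symm⟩)
    · exact Or.inl (Or.inr ⟨x, h.symm⟩)
    · exact Or.inr (Or.inl ⟨x, h.symm⟩)
    · exact Or.inr (Or.inr h)
  · rintro ((⟨x, h⟩ | ⟨x, h⟩) | (⟨x, h⟩ | h))
    · exact Or.inl (Or.inl ⟨x, mem_univ _, h.symm⟩)
    · exact Or.inl (Or.inr ⟨x, mem_univ _, h.symm⟩)
    · exact Or.inr (Or.inl ⟨x, mem_univ _, h.symm⟩)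
    · exact Or.inr (Or.inr h)

theorem mT0 (p q : MS n) : (mach n).T p 0 q ↔ q = rX n 1 p := by
  change (p, (0 : Fin 3), q) ∈ mδ n ↔ _
  rw [mem_mδ]
  constructor
  · rintro ((⟨x, h⟩ | ⟨x, h⟩) | (⟨x, h⟩ | h))
    · have h1 : p = x := congrArg (fun t => t.1) h
      have h2 : q = rX n 1 x := congrArg (fun t => t.2.2) h
      rw [h1]; exact h2
    · exact absurd (congrArg (fun t => t.2.1) h) (by simp)
    · exact absurd (congrArg (fun t => t.2.1) h) (by simp)
    · exact absurd (congrArg (fun t => t.2.1) h) (by simp)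
  · rintro rfl
    exact Or.inl (Or.inl ⟨p, rfl⟩)

theorem mT1 (p q : MS n) : (mach n).T p 1 q ↔ q = rY n 1 p := by
  change (p, (1 : Fin 3), q) ∈ mδ n ↔ _
  rw [mem_mδ]
  constructor
  · rintro ((⟨x, h⟩ | ⟨x, h⟩) | (⟨x, h⟩ | h))
    · exact absurd (congrArg (fun t => t.2.1) h) (by simp)
    · have h1 : p = x := congrArg (fun t => t.1) h
      have h2 : q = rY n 1 x := congrArg (fun t => t.2.2) h
      rw [h1]; exact h2
    · exact absurd (congrArg (fun t => t.2.1) h) (by simp)
    · exact absurd (congrArg (fun t => t.2.1) h) (by simp)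
  · rintro rfl
    exact Or.inl (Or.inr ⟨p, rfl⟩)

theorem mT2 (p q : MS n) : (mach n).T p 2 q ↔ q = p ∨ (p = (false, 0) ∧ q = (true, 0)) := by
  change (p, (2 : Fin 3), q) ∈ mδ n ↔ _
  rw [mem_mδ]
  constructor
  · rintro ((⟨x, h⟩ | ⟨x, h⟩) | (⟨x, h⟩ | h))
    · exact absurd (congrArg (fun t => t.2.1) h) (by simp)
    · exact absurd (congrArg (fun t => t.2.1) h) (by simp)
    · have h1 : p = x := congrArg (fun t => t.1) h
      have h2 : q = x := congrArg (fun t => t.2.2) h
      exact Or.inl (h2.trans h1.symm)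
    · have h1 : p = (false, 0) := congrArg (fun t => t.1) h
      have h2 : q = (true, 0) := congrArg (fun t => t.2.2) h
      exact Or.inr ⟨h1, h2⟩
  · rintro (h | ⟨h1, h2⟩)
    · rw [h]; exact Or.inr (Or.inl ⟨p, rfl⟩)
    · rw [h1, h2]; exact Or.inr (Or.inr rfl)

omit [NeZero n] in
theorem rX_zero (p : MS n) : rX n 0 p = p := by
  obtain ⟨b, x⟩ := p
  cases b <;> simp [rX]

omit [NeZero n] in
theorem rY_zero (p : MS n) : rY n 0 p = p := by
  obtain ⟨b, x⟩ := p
  cases b <;> simp [rY]

omit [NeZero n] in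
theorem rX_rX (k m : ZMod n) (p : MS n) : rX n m (rX n k p) = rX n (k + m) p := by
  obtain ⟨b, x⟩ := p
  cases b <;> simp [rX, add_assoc]

omit [NeZero n] in
theorem rY_rY (k m : ZMod n) (p : MS n) : rY n m (rY n k p) = rY n (k + m) p := by
  obtain ⟨b, x⟩ := p
  cases b <;> simp [rY, add_assoc]

theorem path_rep0 (k : ℕ) : ∀ p q : MS n,
    RPath (mach n).T p (List.replicate k 0) q ↔ q = rX n k p := by
  induction k with
  | zero => intro p q; rw [List.replicate_zero, RPath_nil, Nat.cast_zero, rX_zero]; exact eq_comm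
  | succ k ih =>
    intro p q
    rw [List.replicate_succ, RPath_cons]
    constructor
    · rintro ⟨r, h1, h2⟩
      rw [mT0] at h1
      have h3 := (ih r q).1 h2
      rw [h3, h1, rX_rX, Nat.cast_succ, add_comm]
    · intro h
      refine ⟨rX n 1 p, (mT0 n _ _).2 rfl, (ih _ _).2 ?_⟩
      rw [h, rX_rX, Nat.cast_succ, add_comm]

theorem path_rep1 (k : ℕ) : ∀ p q : MS n,
    RPath (mach n).T p (List.replicate k 1) q ↔ q = rY n k p := by
  induction k with
  | zero => intro p q; rw [List.replicate_zero, RPath_nil, Nat.cast_zero, rY_zero]; exact eq_comm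
  | succ k ih =>
    intro p q
    rw [List.replicate_succ, RPath_cons]
    constructor
    · rintro ⟨r, h1, h2⟩
      rw [mT1] at h1
      have h3 := (ih r q).1 h2
      rw [h3, h1, rY_rY, Nat.cast_succ, add_comm]
    · intro h
      refine ⟨rY n 1 p, (mT1 n _ _).2 rfl, (ih _ _).2 ?_⟩
      rw [h, rY_rY, Nat.cast_succ, add_comm]

/-- word adding one pair -/
def wij (i j : ZMod n) : List (Fin 3) :=
  List.replicate (-i).val 0 ++ (List.replicate (-j).val 1 ++ ([2] ++
    (List.replicate j.val 1 ++ List.replicate i.val 0)))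

theorem path_wij (i j : ZMod n) (p q : MS n) :
    RPath (mach n).T p (wij n i j) q ↔ q = p ∨ (p = (false, i) ∧ q = (true, j)) := by
  unfold wij
  rw [RPath_append]
  constructor
  · rintro ⟨p1, h1, h2⟩
    rw [RPath_append] at h2
    obtain ⟨p2, h2, h3⟩ := h2
    rw [RPath_append] at h3
    obtain ⟨p3, h3, h4⟩ := h3
    rw [RPath_append] at h4
    obtain ⟨p4, h4, h5⟩ := h4
    have e1 := (path_rep0 n _ _ _).1 h1
    have e2 := (path_rep1 n _ _ _).1 h2
    have e4 := (path_rep1 n _ _ _).1 h4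
    have e5 := (path_rep0 n _ _ _).1 h5
    rw [ZMod.natCast_zmod_val] at e1 e2 e4 e5
    obtain ⟨p3', h31, h32⟩ := h3
    rw [RPath_nil] at h32
    subst h32
    rw [mT2] at h31
    obtain ⟨b, x⟩ := p
    rcases h31 with h31 | ⟨h31, h33⟩
    · left
      rw [e5, e4, h31, e2, e1]
      cases b <;> simp [rX, rY]
    · right
      rw [e5, e4, h33]
      rw [h31, e1] at e2
      cases b
      · simp only [rX, rY, Bool.false_eq_true, if_false, Prod.mk.injEq, true_and] at e2
        have : x = i := by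
          have h := e2
          rw [eq_comm, ← sub_eq_add_neg, sub_eq_zero] at h
          exact h
        rw [this]
        simp [rX, rY]
      · simp [rX, rY] at e2
  · intro h
    rcases h with h | ⟨h1, h2⟩
    · refine ⟨rX n (-i) p, ?_, ?_⟩
      · rw [path_rep0, ZMod.natCast_zmod_val]
      rw [RPath_append]
      refine ⟨rY n (-j) (rX n (-i) p), ?_, ?_⟩
      · rw [path_rep1, ZMod.natCast_zmod_val]
      rw [RPath_append]
      refine ⟨rY n (-j) (rX n (-i) p), ?_, ?_⟩
      · exact ⟨_, (mT2 n _ _).2 (Or.inl rfl), rfl⟩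
      rw [RPath_append]
      refine ⟨rY n j (rY n (-j) (rX n (-i) p)), ?_, ?_⟩
      · rw [path_rep1, ZMod.natCast_zmod_val]
      · rw [path_rep0, ZMod.natCast_zmod_val, h]
        obtain ⟨b, x⟩ := p
        cases b <;> simp [rX, rY]
    · refine ⟨rX n (-i) p, ?_, ?_⟩
      · rw [path_rep0, ZMod.natCast_zmod_val]
      rw [RPath_append]
      refine ⟨rY n (-j) (rX n (-i) p), ?_, ?_⟩
      · rw [path_rep1, ZMod.natCast_zmod_val]
      rw [RPath_append]
      refine ⟨(true, 0), ?_, ?_⟩
      · refine ⟨_, (mT2 n _ _).2 (Or.inr ⟨?_, rfl⟩), rfl⟩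
        rw [h1]; simp [rX, rY]
      rw [RPath_append]
      refine ⟨rY n j (true, 0), ?_, ?_⟩
      · rw [path_rep1, ZMod.natCast_zmod_val]
      · rw [path_rep0, ZMod.natCast_zmod_val, h2]
        simp [rX, rY]

/-- word adding a list of pairs -/
def wN (l : List (ZMod n × ZMod n)) : List (Fin 3) := l.flatMap (fun x => wij n x.1 x.2)

theorem path_wN (l : List (ZMod n × ZMod n)) : ∀ p q : MS n,
    RPath (mach n).T p (wN n l) q ↔ q = p ∨ ∃ x ∈ l, p = (false, x.1) ∧ q = (true, x.2) := by
  induction l with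
  | nil =>
    intro p q
    have : wN n [] = [] := rfl
    rw [this, RPath_nil]
    constructor
    · intro h; exact Or.inl h.symm
    · rintro (h | ⟨x, hx, -⟩)
      · exact h.symm
      · exact absurd hx (List.not_mem_nil)
  | cons y l ih =>
    intro p q
    have : wN n (y :: l) = wij n y.1 y.2 ++ wN n l := by unfold wN; rw [List.flatMap_cons]
    rw [this, RPath_append]
    constructor
    · rintro ⟨r, h1, h2⟩
      rw [path_wij] at h1
      have h2' := (ih r q).1 h2
      rcases h1 with h1 | ⟨h11, h12⟩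
      · rw [h1] at h2'
        rcases h2' with h2' | ⟨x, hx, h3, h4⟩
        · exact Or.inl h2'
        · exact Or.inr ⟨x, List.mem_cons_of_mem _ hx, h3, h4⟩
      · rcases h2' with h2' | ⟨x, hx, h3, h4⟩
        · exact Or.inr ⟨y, List.mem_cons_self, h11, h2'.trans h12⟩
        · rw [h12] at h3; simp at h3
    · rintro (h | ⟨x, hx, h3, h4⟩)
      · exact ⟨p, (path_wij n _ _ _ _).2 (Or.inl rfl), (ih _ _).2 (Or.inl h)⟩
      · rcases List.mem_cons.1 hx with rfl | hx
        · exact ⟨q, (path_wij n _ _ _ _).2 (Or.inr ⟨h3, h4⟩), (ih _ _).2 (Or.inl rfl)⟩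
        · exact ⟨p, (path_wij n _ _ _ _).2 (Or.inl rfl), (ih _ _).2 (Or.inr ⟨x, hx, h3, h4⟩)⟩

/-- the morphism attached to a set of pairs -/
noncomputable def hN (N : Finset (ZMod n × ZMod n)) : FreeMonoid Bool →* FreeMonoid (Fin 3) :=
  FreeMonoid.lift (fun b => if b then FreeMonoid.ofList (wN n N.toList)
    else FreeMonoid.ofList [0, 1])

omit [NeZero n] in
theorem img_hN_false (N : Finset (ZMod n × ZMod n)) : img (hN n N) false = [0, 1] := by
  unfold img hN
  rw [FreeMonoid.lift_eval_of]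
  rfl

omit [NeZero n] in
theorem img_hN_true (N : Finset (ZMod n × ZMod n)) : img (hN n N) true = wN n N.toList := by
  unfold img hN
  rw [FreeMonoid.lift_eval_of]
  rfl

theorem path_false (N : Finset (ZMod n × ZMod n)) (p q : MS n) :
    RPath (mach n).T p (img (hN n N) false) q ↔ q = (p.1, p.2 + 1) := by
  rw [img_hN_false]
  have : ([0, 1] : List (Fin 3)) = List.replicate 1 0 ++ List.replicate 1 1 := rfl
  rw [this, RPath_append]
  constructor
  · rintro ⟨r, h1, h2⟩
    have h1' := (path_rep0 n _ _ _).1 h1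
    have h2' := (path_rep1 n _ _ _).1 h2
    rw [h2', h1']
    obtain ⟨b, x⟩ := p
    cases b <;> simp [rX, rY]
  · intro h
    refine ⟨rX n 1 p, (path_rep0 n _ _ _).2 (by rw [Nat.cast_one]), (path_rep1 n _ _ _).2 ?_⟩
    rw [h]
    obtain ⟨b, x⟩ := p
    cases b <;> simp [rX, rY]

theorem path_false_rep (N : Finset (ZMod n × ZMod n)) (k : ℕ) (v : List Bool) : ∀ (p q : MS n),
    RPath (mach n).T p ((hN n N (FreeMonoid.ofList (List.replicate k false ++ v))).toList) q ↔
      RPath (mach n).T (p.1, p.2 + k) ((hN n N (FreeMonoid.ofList v)).toList) q := by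
  induction k with
  | zero => intro p q; simp
  | succ k ih =>
    intro p q
    rw [List.replicate_succ, List.cons_append, hom_cons, RPath_append]
    constructor
    · rintro ⟨r, h1, h2⟩
      have h1' := (path_false n N _ _).1 h1
      have h2' := (ih r q).1 h2
      rw [h1'] at h2'
      simp only [add_assoc] at h2'
      rw [Nat.cast_succ, add_comm (k : ZMod n) 1]
      exact h2'
    · intro h
      refine ⟨(p.1, p.2 + 1), (path_false n N _ _).2 rfl, (ih _ _).2 ?_⟩
      simp only [add_assoc]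
      rw [Nat.cast_succ, add_comm (k : ZMod n) 1] at h
      exact h

/-- test word -/
def tw (i j : ZMod n) : List Bool :=
  List.replicate i.val false ++ (true :: (List.replicate (-j).val false ++ []))

theorem tw_mem (N : Finset (ZMod n × ZMod n)) (i j : ZMod n) :
    tw n i j ∈ invMor (hN n N) (mach n).lang ↔ (i, j) ∈ N := by
  rw [mem_invMor, FA.mem_lang]
  have hstart : (mach n).start = ((false, 0) : MS n) := rfl
  have hacc : ∀ q : MS n, q ∈ (mach n).accept ↔ q = (true, 0) := fun q => Iff.rfl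
  unfold tw
  constructor
  · rintro ⟨q, hq, hp⟩
    have hq' := (hacc q).1 hq
    have h1 := (path_false_rep n N _ _ (false, 0) q).1 hp
    rw [hom_cons, RPath_append] at h1
    obtain ⟨r, h2, h3⟩ := h1
    rw [img_hN_true] at h2
    have h2' := (path_wN n _ _ _).1 h2
    have h3' := (path_false_rep n N _ _ r q).1 h3
    rw [hom_nil, RPath_nil] at h3'
    rw [hq'] at h3'
    rw [ZMod.natCast_zmod_val] at h3' h2'
    rcases h2' with h2' | ⟨x, hx, h4, h5⟩
    · rw [h2'] at h3'
      exact absurd (congrArg (fun z : MS n => z.1) h3') (by simp)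
    · rw [h5] at h3'
      have h6 : x.2 + -j = 0 := congrArg (fun z : MS n => z.2) h3'
      have h7 : (0 : ZMod n) + i = x.1 := congrArg (fun z : MS n => z.2) h4
      rw [zero_add] at h7
      rw [← sub_eq_add_neg, sub_eq_zero] at h6
      rw [Finset.mem_toList] at hx
      have : x = (i, j) := Prod.ext h7.symm h6
      rw [← this]; exact hx
  · intro h
    refine ⟨((true, 0) : MS n), (hacc _).2 rfl, ?_⟩
    refine (path_false_rep n N _ _ (false, 0) (true, 0)).2 ?_
    rw [hom_cons, RPath_append]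
    refine ⟨(true, j), ?_, ?_⟩
    · rw [img_hN_true]
      refine (path_wN n _ _ _).2 (Or.inr ⟨(i, j), Finset.mem_toList.2 h, ?_, rfl⟩)
      rw [ZMod.natCast_zmod_val, zero_add]
    · refine (path_false_rep n N _ _ (true, j) (true, 0)).2 ?_
      rw [hom_nil, RPath_nil, ZMod.natCast_zmod_val]
      simp

theorem invMor_inj {N N' : Finset (ZMod n × ZMod n)}
    (h : invMor (hN n N) (mach n).lang = invMor (hN n N') (mach n).lang) : N = N' := by
  ext ⟨i, j⟩
  rw [← tw_mem, ← tw_mem, h]

end Machine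

end Pool.Agent.Work.MP_91c91a_lc
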