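import Pool.Agent.Work.MP_91c91a_lc.Count

set_option autoImplicit false

namespace Pool.Agent.Work.MP_91c91a_lc

open Finset

section Pad

variable {S : Type} {M : ℕ}

/-- padded language -/
def PL (L : Language S) (M i : ℕ) : Language (S ⊕ Fin M) :=
  {w | (∃ u ∈ L, w = u.map Sum.inl) ∨ ∃ x : Fin M, x.1 < i ∧ w = [Sum.inr x]}

theorem mem_PL (L : Language S) (i : ℕ) (w : List (S ⊕ Fin M)) :
    w ∈ PL L M i ↔ (∃ u ∈ L, w = u.map Sum.inl) ∨ ∃ x : Fin M, x.1 < i ∧ w = [Sum.inr x] :=
  Iff.rfl

/-- transitions of the padded automaton -/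
noncomputable def padδ (A : FA S) (z : Fin M) :
    Finset (Option (Option A.Q) × (S ⊕ Fin M) × Option (Option A.Q)) := by
  classical
  exact
    A.δ.image (fun t => (some (some t.1), Sum.inl t.2.1, some (some t.2.2))) ∪
    ((A.δ.filter (fun t => t.1 = A.start)).image (fun t => (none, Sum.inl t.2.1, some (some t.2.2))) ∪
    {(none, Sum.inr z, some none)})

/-- automaton for the first padded language -/
noncomputable def padA (A : FA S) (z : Fin M) : FA (S ⊕ Fin M) where
  Q := Option (Option A.Q)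
  finQ := by have := A.finQ; infer_instance
  start := none
  accept := {x | x = some none ∨ (∃ q ∈ A.accept, x = some (some q)) ∨
    (x = none ∧ A.start ∈ A.accept)}
  δ := padδ A z

theorem card_padδ (A : FA S) (z : Fin M) : (padδ A z).card ≤ 2 * A.δ.card + 1 := by
  classical
  unfold padδ
  refine (card_union_le _ _).trans ?_
  have h1 : (A.δ.image (fun t => ((some (some t.1), Sum.inl t.2.1, some (some t.2.2)) :
    Option (Option A.Q) × (S ⊕ Fin M) × Option (Option A.Q)))).card ≤ A.δ.card := card_image_le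
  have h2 : ((A.δ.filter (fun t => t.1 = A.start)).image
    (fun t => ((none, Sum.inl t.2.1, some (some t.2.2)) :
    Option (Option A.Q) × (S ⊕ Fin M) × Option (Option A.Q)))).card ≤ A.δ.card :=
    card_image_le.trans (card_filter_le _ _)
  have h3 := card_union_le ((A.δ.filter (fun t => t.1 = A.start)).image
    (fun t => ((none, Sum.inl t.2.1, some (some t.2.2)) :
    Option (Option A.Q) × (S ⊕ Fin M) × Option (Option A.Q)))) {(none, Sum.inr z, some none)}
  rw [card_singleton] at h3
  omega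

theorem mem_padδ (A : FA S) (z : Fin M)
    (t : Option (Option A.Q) × (S ⊕ Fin M) × Option (Option A.Q)) :
    t ∈ padδ A z ↔ (∃ p a q, A.T p a q ∧ t = (some (some p), Sum.inl a, some (some q))) ∨
      ((∃ a q, A.T A.start a q ∧ t = (none, Sum.inl a, some (some q))) ∨
        t = (none, Sum.inr z, some none)) := by
  classical
  unfold padδ
  rw [mem_union, mem_union, mem_image, mem_image, mem_singleton]
  constructor
  · rintro (⟨⟨p, a, q⟩, h, rfl⟩ | (⟨⟨p, a, q⟩, h, rfl⟩ | h))
    · exact Or.inl ⟨p, a, q, h, rfl⟩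
    · rw [mem_filter] at h
      obtain ⟨h1, h2⟩ := h
      simp only at h2
      subst h2
      exact Or.inr (Or.inl ⟨a, q, h1, rfl⟩)
    · exact Or.inr (Or.inr h)
  · rintro (⟨p, a, q, h, rfl⟩ | (⟨a, q, h, rfl⟩ | h))
    · exact Or.inl ⟨(p, a, q), h, rfl⟩
    · exact Or.inr (Or.inl ⟨(A.start, a, q), mem_filter.2 ⟨h, rfl⟩, rfl⟩)
    · exact Or.inr (Or.inr h)

theorem padm_some (A : FA S) (z : Fin M) (p : A.Q) (c : S ⊕ Fin M) (x : Option (Option A.Q)) :
    ((some (some p), c, x) : Option (Option A.Q) × (S ⊕ Fin M) × Option (Option A.Q)) ∈ padδ A z ↔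
      ∃ a q, c = Sum.inl a ∧ x = some (some q) ∧ A.T p a q := by
  rw [mem_padδ]
  constructor
  · rintro (⟨p', a', q', h3, h4⟩ | (⟨a', q', h3, h4⟩ | h4))
    · simp only [Prod.mk.injEq, Option.some.injEq] at h4
      obtain ⟨rfl, rfl, rfl⟩ := h4
      exact ⟨a', q', rfl, rfl, h3⟩
    · simp at h4
    · simp at h4
  · rintro ⟨a, q, rfl, rfl, h⟩
    exact Or.inl ⟨p, a, q, h, rfl⟩

theorem padm_end (A : FA S) (z : Fin M) (c : S ⊕ Fin M) (x : Option (Option A.Q)) :
    ((some none, c, x) : Option (Option A.Q) × (S ⊕ Fin M) × Option (Option A.Q)) ∉ padδ A z := by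
  rw [mem_padδ]
  rintro (⟨p', a', q', h3, h4⟩ | (⟨a', q', h3, h4⟩ | h4))
  · simp at h4
  · simp at h4
  · simp at h4

theorem padm_none (A : FA S) (z : Fin M) (c : S ⊕ Fin M) (x : Option (Option A.Q)) :
    ((none, c, x) : Option (Option A.Q) × (S ⊕ Fin M) × Option (Option A.Q)) ∈ padδ A z ↔
      (∃ a q, c = Sum.inl a ∧ x = some (some q) ∧ A.T A.start a q) ∨
      (c = Sum.inr z ∧ x = some none) := by
  rw [mem_padδ]
  constructor
  · rintro (⟨p', a', q', h3, h4⟩ | (⟨a', q', h3, h4⟩ | h4))
    · simp at h4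
    · simp only [Prod.mk.injEq, true_and] at h4
      obtain ⟨rfl, rfl⟩ := h4
      exact Or.inl ⟨a', q', rfl, rfl, h3⟩
    · simp only [Prod.mk.injEq, true_and] at h4
      exact Or.inr h4
  · rintro (⟨a, q, rfl, rfl, h⟩ | ⟨rfl, rfl⟩)
    · exact Or.inr (Or.inl ⟨a, q, h, rfl⟩)
    · exact Or.inr (Or.inr rfl)

theorem padT_some (A : FA S) (z : Fin M) (p : A.Q) (c : S ⊕ Fin M) (x : Option (Option A.Q)) :
    (padA A z).T (some (some p)) c x ↔ ∃ a q, c = Sum.inl a ∧ x = some (some q) ∧ A.T p a q :=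
  padm_some A z p c x

theorem padT_end (A : FA S) (z : Fin M) (c : S ⊕ Fin M) (x : Option (Option A.Q)) :
    ¬ (padA A z).T (some none) c x := padm_end A z c x

theorem padT_none (A : FA S) (z : Fin M) (c : S ⊕ Fin M) (x : Option (Option A.Q)) :
    (padA A z).T none c x ↔ (∃ a q, c = Sum.inl a ∧ x = some (some q) ∧ A.T A.start a q) ∨
      (c = Sum.inr z ∧ x = some none) := padm_none A z c x

theorem pad_some (A : FA S) (z : Fin M) (w : List (S ⊕ Fin M)) :
    ∀ (p : A.Q) (x : Option (Option A.Q)), RPath (padA A z).T (some (some p)) w x ↔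
      ∃ u q, w = u.map Sum.inl ∧ x = some (some q) ∧ RPath A.T p u q := by
  induction w with
  | nil =>
    intro p x
    rw [RPath_nil]
    constructor
    · intro h; exact ⟨[], p, rfl, h.symm, rfl⟩
    · rintro ⟨u, q, h1, h2, h3⟩
      have : u = [] := List.map_eq_nil_iff.1 h1.symm
      subst this
      rw [RPath_nil] at h3
      rw [h2, h3]
  | cons a w ih =>
    intro p x
    rw [RPath_cons]
    constructor
    · rintro ⟨r, h1, h2⟩
      obtain ⟨a', q', rfl, rfl, h3⟩ := (padT_some A z p a r).1 h1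
      obtain ⟨u, q, h5, h6, h7⟩ := (ih _ _).1 h2
      exact ⟨a' :: u, q, by rw [h5]; rfl, h6, q', h3, h7⟩
    · rintro ⟨u, q, h1, h2, h3⟩
      cases u with
      | nil => simp at h1
      | cons b u =>
        rw [List.map_cons, List.cons.injEq] at h1
        obtain ⟨rfl, rfl⟩ := h1
        obtain ⟨r, h4, h5⟩ := h3
        exact ⟨some (some r), (padT_some A z p _ _).2 ⟨b, r, rfl, rfl, h4⟩,
          (ih _ _).2 ⟨u, q, rfl, h2, h5⟩⟩

theorem pad_end (A : FA S) (z : Fin M) (w : List (S ⊕ Fin M)) (x : Option (Option A.Q)) :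
    RPath (padA A z).T (some none) w x ↔ w = [] ∧ x = some none := by
  cases w with
  | nil =>
    rw [RPath_nil]
    constructor
    · intro h; exact ⟨rfl, h.symm⟩
    · intro h; exact h.2.symm
  | cons a w =>
    rw [RPath_cons]
    constructor
    · rintro ⟨r, h1, h2⟩
      exact absurd h1 (padT_end A z a r)
    · rintro ⟨h, -⟩; simp at h

theorem padA_lang (A : FA S) (z : Fin M) (hz : z.1 = 0) : (padA A z).lang = PL A.lang M 1 := by
  ext w
  rw [FA.mem_lang, mem_PL]
  have hacc : ∀ x : Option (Option A.Q), x ∈ (padA A z).accept ↔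
    (x = some none ∨ (∃ q ∈ A.accept, x = some (some q)) ∨
    (x = none ∧ A.start ∈ A.accept)) := fun x => Iff.rfl
  change (∃ x ∈ (padA A z).accept, RPath (padA A z).T none w x) ↔ _
  constructor
  · rintro ⟨x, hx, hp⟩
    have hx' := (hacc x).1 hx
    cases w with
    | nil =>
      rw [RPath_nil] at hp
      rcases hx' with hx | (⟨q, hq, hx⟩ | ⟨-, hx⟩)
      · exact absurd (hp.trans hx) (by simp)
      · exact absurd (hp.trans hx) (by simp)
      · exact Or.inl ⟨[], ⟨A.start, hx, rfl⟩, rfl⟩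
    | cons a w =>
      obtain ⟨r, h1, h2⟩ := hp
      rcases (padT_none A z a r).1 h1 with ⟨a', q', rfl, rfl, h3⟩ | ⟨rfl, rfl⟩
      · obtain ⟨u, q, h5, h6, h7⟩ := (pad_some A z _ _ _).1 h2
        rcases hx' with hx | (⟨q'', hq, hx⟩ | ⟨hx, -⟩)
        · exact absurd (h6.symm.trans hx) (by simp)
        · have h8 : q = q'' := Option.some.inj (Option.some.inj (h6.symm.trans hx))
          subst h8
          exact Or.inl ⟨a' :: u, ⟨q, hq, q', h3, h7⟩, by rw [h5]; rfl⟩
        · exact absurd (h6.symm.trans hx) (by simp)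
      · obtain ⟨h5, h6⟩ := (pad_end A z _ _).1 h2
        subst h5
        exact Or.inr ⟨z, by omega, rfl⟩
  · rintro (⟨u, ⟨q, hq, hp⟩, rfl⟩ | ⟨x, hx, rfl⟩)
    · cases u with
      | nil =>
        rw [RPath_nil] at hp
        exact ⟨none, Or.inr (Or.inr ⟨rfl, hp ▸ hq⟩), rfl⟩
      | cons a u =>
        obtain ⟨r, h1, h2⟩ := hp
        exact ⟨some (some q), Or.inr (Or.inl ⟨q, hq, rfl⟩), some (some r),
          (padT_none A z _ _).2 (Or.inl ⟨a, r, rfl, rfl, h1⟩),
          (pad_some A z _ _ _).2 ⟨u, q, rfl, rfl, h2⟩⟩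
    · have : x = z := Fin.ext (by omega)
      subst this
      exact ⟨some none, Or.inl rfl, some none, (padT_none A x _ _).2 (Or.inr ⟨rfl, rfl⟩), rfl⟩

/-- letter identification -/
def sg (i z : Fin M) : S ⊕ Fin M → S ⊕ Fin M
  | Sum.inl a => Sum.inl a
  | Sum.inr x => if x = i then Sum.inr z else Sum.inr x

theorem PL_step (L : Language S) (i : ℕ) (hi : 1 ≤ i) (hiM : i < M)
    (h : ∃ A : FA (S ⊕ Fin M), A.lang = PL L M i) :
    (∃ A : FA (S ⊕ Fin M), A.lang = PL L M (i + 1)) ∧ tc (PL L M (i + 1)) ≤ tc (PL L M i) + 1 := by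
  classical
  obtain ⟨B, hB, hc⟩ := exists_tc h
  have hz : 0 < M := by omega
  let z : Fin M := ⟨0, hz⟩
  let i' : Fin M := ⟨i, hiM⟩
  have hzi : z ≠ i' := by
    intro h; have := congrArg Fin.val h
    change 0 = i at this; omega
  have h0 : ([Sum.inr z] : List (S ⊕ Fin M)) ∈ B.lang := by
    rw [hB]; exact Or.inr ⟨z, hi, rfl⟩
  obtain ⟨f, hf, r, hr, hrf⟩ := h0
  rw [RPath_nil] at hrf
  subst hrf
  let δ' := insert (B.start, Sum.inr i', r) (B.δ.filter (fun t => t.2.1 ≠ Sum.inr i'))
  let B' : FA (S ⊕ Fin M) := ⟨B.Q, B.finQ, B.start, B.accept, δ'⟩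
  have hT' : ∀ p a q, B'.T p a q ↔ ((p, a, q) = (B.start, Sum.inr i', r) ∨
      (B.T p a q ∧ a ≠ Sum.inr i')) := by
    intro p a q
    change (p, a, q) ∈ δ' ↔ _
    rw [mem_insert, mem_filter]
    rfl
  have hfw : ∀ (w : List (S ⊕ Fin M)) (p q : B.Q), RPath B'.T p w q →
      RPath B.T p (w.map (sg i' z)) q := by
    intro w
    induction w with
    | nil => intro p q h; exact h
    | cons a w ih =>
      rintro p q ⟨s, h1, h2⟩
      refine ⟨s, ?_, ih _ _ h2⟩
      rcases (hT' _ _ _).1 h1 with h1 | ⟨h1, h3⟩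
      · have e1 : p = B.start := congrArg (fun t => t.1) h1
        have e2 : a = Sum.inr i' := congrArg (fun t => t.2.1) h1
        have e3 : s = r := congrArg (fun t => t.2.2) h1
        have : sg i' z a = Sum.inr z := by rw [e2]; simp [sg]
        rw [this, e1, e3]; exact hr
      · have : sg i' z a = a := by
          cases a with
          | inl a => rfl
          | inr x =>
            have : x ≠ i' := fun h => h3 (by rw [h])
            simp [sg, this]
        rw [this]; exact h1
  have hbw : ∀ (w : List (S ⊕ Fin M)) (p q : B.Q), Sum.inr i' ∉ w → RPath B.T p w q →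
      RPath B'.T p w q := by
    intro w
    induction w with
    | nil => intro p q _ h; exact h
    | cons a w ih =>
      rintro p q hw ⟨s, h1, h2⟩
      rw [List.mem_cons, not_or] at hw
      exact ⟨s, (hT' _ _ _).2 (Or.inr ⟨h1, fun h => hw.1 h.symm⟩), ih _ _ hw.2 h2⟩
  have hlang : B'.lang = PL L M (i + 1) := by
    ext w
    rw [mem_PL]
    constructor
    · rintro ⟨q, hq, hp⟩
      have h1 : w.map (sg i' z) ∈ B.lang := ⟨q, hq, hfw _ _ _ hp⟩
      rw [hB, mem_PL] at h1
      rcases h1 with ⟨u, hu, h1⟩ | ⟨x, hx, h1⟩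
      · left
        refine ⟨u, hu, ?_⟩
        rw [← h1]
        have : ∀ (w : List (S ⊕ Fin M)) (u : List S), w.map (sg i' z) = u.map Sum.inl →
            w = w.map (sg i' z) := by
          intro w
          induction w with
          | nil => intro u _; rfl
          | cons a w ih =>
            intro u h
            cases u with
            | nil => simp at h
            | cons b u =>
              simp only [List.map_cons, List.cons.injEq] at h
              rw [List.map_cons, ← ih u h.2]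
              congr 1
              cases a with
              | inl a => rfl
              | inr x =>
                have h3 := h.1
                unfold sg at h3
                simp only at h3
                split_ifs at h3
        exact this w u h1
      · right
        cases w with
        | nil => simp at h1
        | cons a w =>
          simp only [List.map_cons, List.cons.injEq, List.map_eq_nil_iff] at h1
          obtain ⟨h2, rfl⟩ := h1
          cases a with
          | inl a => simp [sg] at h2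
          | inr y =>
            by_cases hy : y = i'
            · exact ⟨i', Nat.lt_succ_self i, by rw [hy]⟩
            · simp only [sg, hy, if_false, Sum.inr.injEq] at h2
              exact ⟨x, Nat.lt_succ_of_lt hx, by rw [h2]⟩
    · rintro (⟨u, hu, rfl⟩ | ⟨x, hx, rfl⟩)
      · have h1 : u.map Sum.inl ∈ B.lang := by rw [hB]; exact Or.inl ⟨u, hu, rfl⟩
        obtain ⟨q, hq, hp⟩ := h1
        exact ⟨q, hq, hbw _ _ _ (by simp) hp⟩
      · by_cases hx' : x = i'
        · rw [hx']
          exact ⟨r, hf, r, (hT' _ _ _).2 (Or.inl rfl), rfl⟩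
        · have hx2 : x.1 < i := by
            rcases Nat.lt_succ_iff_lt_or_eq.1 hx with h | h
            · exact h
            · exact absurd (Fin.ext h) hx'
          have h1 : ([Sum.inr x] : List (S ⊕ Fin M)) ∈ B.lang := by
            rw [hB]; exact Or.inr ⟨x, hx2, rfl⟩
          obtain ⟨q, hq, hp⟩ := h1
          refine ⟨q, hq, hbw _ _ _ ?_ hp⟩
          rw [List.mem_singleton, Sum.inr.injEq]
          exact fun h => hx' h.symm
  refine ⟨⟨B', hlang⟩, ?_⟩
  rw [← hc]
  refine (tc_le_of_eq B' hlang).trans ?_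
  change δ'.card ≤ _
  exact (card_insert_le _ _).trans (Nat.add_le_add_right (card_filter_le _ _) 1)

theorem le_tc_PL (L : Language S) (h : ∃ A : FA (S ⊕ Fin M), A.lang = PL L M M) :
    M ≤ tc (PL L M M) := by
  classical
  obtain ⟨A, hA, hc⟩ := exists_tc h
  rw [← hc]
  have h1 : ∀ x : Fin M, ∃ q, (A.start, (Sum.inr x : S ⊕ Fin M), q) ∈ A.δ := by
    intro x
    have : ([Sum.inr x] : List (S ⊕ Fin M)) ∈ A.lang := by
      rw [hA]; exact Or.inr ⟨x, x.2, rfl⟩
    obtain ⟨q, hq, r, hr, -⟩ := this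
    exact ⟨r, hr⟩
  choose f hf using h1
  have h2 : (univ : Finset (Fin M)).card ≤ A.δ.card := by
    apply card_le_card_of_injOn (fun x => (A.start, (Sum.inr x : S ⊕ Fin M), f x))
    · intro x _; exact hf x
    · intro x _ y _ hxy
      simp only [Prod.mk.injEq, Sum.inr.injEq] at hxy
      exact hxy.2.1
  rwa [card_univ, Fintype.card_fin] at h2

theorem ivt (f : ℕ → ℕ) (m a b : ℕ) (hab : a ≤ b) (ha : f a ≤ m) (hb : m ≤ f b)
    (hs : ∀ i, a ≤ i → i < b → f (i + 1) ≤ f i + 1) : ∃ i, a ≤ i ∧ i ≤ b ∧ f i = m := by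
  induction b with
  | zero =>
    have : a = 0 := Nat.le_zero.1 hab
    subst this
    exact ⟨0, le_rfl, le_rfl, le_antisymm ha hb⟩
  | succ b ih =>
    rcases Nat.eq_or_lt_of_le hab with h | h
    · subst h; exact ⟨b + 1, le_rfl, le_rfl, le_antisymm ha hb⟩
    · have hab' : a ≤ b := Nat.lt_succ_iff.1 h
      by_cases hm : m ≤ f b
      · obtain ⟨i, h1, h2, h3⟩ := ih hab' hm (fun i h1 h2 => hs i h1 (by omega))
        exact ⟨i, h1, by omega, h3⟩
      · have := hs b hab' (Nat.lt_succ_self b)
        exact ⟨b + 1, hab, le_rfl, by omega⟩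

/-- Padding: from a regular language of complexity at most `(m - 1) / 2` one gets a language of
complexity exactly `m` with the same words over the old alphabet. -/
theorem exists_pad (L : Language S) (hL : ∃ A : FA S, A.lang = L) (m : ℕ)
    (hm : 2 * tc L + 1 ≤ m) :
    ∃ L' : Language (S ⊕ Fin m), (∃ A : FA (S ⊕ Fin m), A.lang = L') ∧ tc L' = m ∧
      ∀ u : List S, u.map Sum.inl ∈ L' ↔ u ∈ L := by
  have hm0 : 0 < m := by omega
  obtain ⟨A, hA, hc⟩ := exists_tc hL
  subst hA
  have h1 : (padA A (⟨0, hm0⟩ : Fin m)).lang = PL A.lang m 1 := padA_lang A _ rfl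
  have h2 : tc (PL A.lang m 1) ≤ m := by
    refine (tc_le_of_eq _ h1).trans ((card_padδ A _).trans ?_)
    rw [hc]; exact hm
  have h3 : ∀ i, 1 ≤ i → i ≤ m → ∃ B : FA (S ⊕ Fin m), B.lang = PL A.lang m i := by
    intro i
    induction i with
    | zero => intro h; omega
    | succ i ih =>
      intro _ h4
      rcases Nat.eq_zero_or_pos i with rfl | hi
      · exact ⟨_, h1⟩
      · exact (PL_step A.lang i hi (by omega) (ih hi (by omega))).1
  have h5 : m ≤ tc (PL A.lang m m) := le_tc_PL A.lang (h3 m hm0 le_rfl)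
  obtain ⟨i, h6, h7, h8⟩ := ivt (fun i => tc (PL A.lang m i)) m 1 m hm0 h2 h5
    (fun i hi hi' => (PL_step A.lang i hi hi' (h3 i hi hi'.le)).2)
  refine ⟨PL A.lang m i, h3 i h6 h7, h8, ?_⟩
  intro u
  rw [mem_PL]
  constructor
  · rintro (⟨v, hv, h⟩ | ⟨x, -, h⟩)
    · rw [List.map_inj_right (fun _ _ h => Sum.inl_injective h)] at h
      rw [h]; exact hv
    · cases u with
      | nil => simp at h
      | cons a u => simp at h
  · intro h; exact Or.inl ⟨u, h, rfl⟩

end Pad

end Pool.Agent.Work.MP_91c91a_lc
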