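import Pool.Agent.Work.MP_91c91a_lc.Upper

set_option autoImplicit false

namespace Pool.Agent.Work.MP_91c91a_lc

open Finset

theorem mem_invMor {Γ S : Type} (h : FreeMonoid Γ →* FreeMonoid S) (L : Language S) (w : List Γ) :
    w ∈ invMor h L ↔ (h (FreeMonoid.ofList w)).toList ∈ L := Iff.rfl

theorem FA.used_of_path {α : Type} (A : FA α) (w : List α) :
    ∀ p q, p ∈ A.used → RPath A.T p w q → q ∈ A.used := by
  induction w with
  | nil => intro p q hp h; rw [RPath_nil] at h; exact h ▸ hp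
  | cons a w ih =>
    rintro p q hp ⟨r, h1, h2⟩
    exact ih r q (A.snd_mem_used h1) h2

/-- the word read by the letter `b` -/
def img {Γ S : Type} (h : FreeMonoid Γ →* FreeMonoid S) (b : Γ) : List S :=
  (h (FreeMonoid.of b)).toList

theorem hom_cons {Γ S : Type} (h : FreeMonoid Γ →* FreeMonoid S) (b : Γ) (w : List Γ) :
    (h (FreeMonoid.ofList (b :: w))).toList = img h b ++ (h (FreeMonoid.ofList w)).toList := by
  rw [FreeMonoid.ofList_cons, map_mul, FreeMonoid.toList_mul]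
  rfl

theorem hom_nil {Γ S : Type} (h : FreeMonoid Γ →* FreeMonoid S) :
    (h (FreeMonoid.ofList ([] : List Γ))).toList = [] := by
  rw [FreeMonoid.ofList_nil, map_one, FreeMonoid.toList_one]

/-- the induced relation on `β` -/
def indT {Γ S β : Type} (A : FA S) (h : FreeMonoid Γ →* FreeMonoid S) (e : A.Q → β) :
    β → Γ → β → Prop :=
  fun x b y => ∃ p ∈ A.used, ∃ q ∈ A.used, e p = x ∧ e q = y ∧ RPath A.T p (img h b) q

theorem indT_path {Γ S β : Type} (A : FA S) (h : FreeMonoid Γ →* FreeMonoid S) (e : A.Q → β)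
    (he : Set.InjOn e A.used) (w : List Γ) :
    ∀ p ∈ A.used, ∀ y, RPath (indT A h e) (e p) w y ↔
      ∃ q ∈ A.used, e q = y ∧ RPath A.T p (h (FreeMonoid.ofList w)).toList q := by
  induction w with
  | nil =>
    intro p hp y
    rw [hom_nil]
    simp only [RPath_nil]
    constructor
    · intro h; exact ⟨p, hp, h, rfl⟩
    · rintro ⟨q, _, h, h2⟩; rw [h2]; exact h
  | cons b w ih =>
    intro p hp y
    rw [hom_cons, RPath_cons]
    constructor
    · rintro ⟨x, ⟨p', hp', q', hq', h1, h2, h3⟩, h4⟩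
      have : p' = p := he hp' hp h1
      subst this
      subst h2
      rw [ih q' hq'] at h4
      obtain ⟨q, hq, h5, h6⟩ := h4
      refine ⟨q, hq, h5, ?_⟩
      rw [RPath_append]
      exact ⟨q', h3, h6⟩
    · rintro ⟨q, hq, h5, h6⟩
      rw [RPath_append] at h6
      obtain ⟨q', h3, h7⟩ := h6
      have hq' := A.used_of_path _ _ _ hp h3
      refine ⟨e q', ⟨p, hp, q', hq', rfl, rfl, h3⟩, ?_⟩
      rw [ih q' hq']
      exact ⟨q, hq, h5, h7⟩

theorem exists_indT {Γ S : Type} (A : FA S) (h : FreeMonoid Γ →* FreeMonoid S) :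
    ∃ (T : Fin (2 * A.δ.card + 1) → Γ → Fin (2 * A.δ.card + 1) → Prop)
      (s : Fin (2 * A.δ.card + 1)) (F : Set (Fin (2 * A.δ.card + 1))),
      invMor h A.lang = {w | ∃ f ∈ F, RPath T s w f} := by
  obtain ⟨e, he⟩ := A.exists_embed A.δ.card le_rfl
  refine ⟨indT A h e, e A.start, {x | ∃ q ∈ A.used, q ∈ A.accept ∧ e q = x}, ?_⟩
  ext w
  rw [mem_invMor, FA.mem_lang]
  constructor
  · rintro ⟨q, hq, hp⟩
    have hu := A.used_of_path _ _ _ A.start_mem_used hp
    exact ⟨e q, ⟨q, hu, hq, rfl⟩, (indT_path A h e he w _ A.start_mem_used _).2 ⟨q, hu, rfl, hp⟩⟩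
  · rintro ⟨f, ⟨q, hu, hq, rfl⟩, hp⟩
    rw [indT_path A h e he w _ A.start_mem_used] at hp
    obtain ⟨q', hu', h1, h2⟩ := hp
    have : q' = q := he hu' hu h1
    subst this
    exact ⟨q', hq, h2⟩

theorem tc_invMor_le {Γ S : Type} [Fintype Γ] (h : FreeMonoid Γ →* FreeMonoid S) (L : Language S)
    (hL : ∃ A : FA S, A.lang = L) (l : ℕ) (hl : 0 < l) :
    tc (invMor h L) ≤ (2 * tc L + 1) * (Fintype.card Γ) ^ 2 * 2 ^ l +
      ((Fintype.card Γ) ^ 2 * ((2 * tc L + 1) / l + 1) * (2 * tc L + 1) +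
        (2 * tc L + 1) * Fintype.card Γ) := by
  obtain ⟨A, hA, hc⟩ := exists_tc hL
  obtain ⟨T, s, F, hT⟩ := exists_indT A h
  subst hA
  rw [← hc]
  refine (tc_le_of_eq (sparse _ l hl T s F) ?_).trans (card_sδ _ l hl T F)
  rw [sparse_lang]
  exact hT.symm

end Pool.Agent.Work.MP_91c91a_lc
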