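import Pool.Agent.Work.MP_91c91a_lc.Basic

set_option autoImplicit false

namespace Pool.Agent.Work.MP_91c91a_lc

open Finset

/-- The states of an automaton that matter: the start state and the endpoints of transitions. -/
noncomputable def FA.used {α : Type} (A : FA α) : Finset A.Q := by
  classical
  exact insert A.start (A.δ.image (fun t => t.1) ∪ A.δ.image (fun t => t.2.2))

theorem FA.card_used {α : Type} (A : FA α) : A.used.card ≤ 2 * A.δ.card + 1 := by
  classical
  unfold FA.used
  refine (card_insert_le _ _).trans ?_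
  have h1 := card_union_le (A.δ.image (fun t => t.1)) (A.δ.image (fun t => t.2.2))
  have h2 : (A.δ.image (fun t => t.1)).card ≤ A.δ.card := card_image_le
  have h3 : (A.δ.image (fun t => t.2.2)).card ≤ A.δ.card := card_image_le
  omega

theorem FA.start_mem_used {α : Type} (A : FA α) : A.start ∈ A.used := by
  classical
  unfold FA.used; simp

theorem FA.fst_mem_used {α : Type} (A : FA α) {p q : A.Q} {a : α} (h : A.T p a q) : p ∈ A.used := by
  classical
  unfold FA.used
  rw [mem_insert, mem_union, mem_image]
  exact Or.inr (Or.inl ⟨_, h, rfl⟩)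

theorem FA.snd_mem_used {α : Type} (A : FA α) {p q : A.Q} {a : α} (h : A.T p a q) : q ∈ A.used := by
  classical
  unfold FA.used
  rw [mem_insert, mem_union, mem_image, mem_image]
  exact Or.inr (Or.inr ⟨_, h, rfl⟩)

/-- Every automaton with at most `t` transitions is equivalent to one on the states
`Fin (2 * t + 1)`. -/
theorem FA.exists_embed {α : Type} (A : FA α) (t : ℕ) (ht : A.δ.card ≤ t) :
    ∃ e : A.Q → Fin (2 * t + 1), Set.InjOn e A.used := by
  classical
  have hc : A.used.card ≤ 2 * t + 1 := (A.card_used).trans (by omega)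
  have := A.finQ
  have : Fintype A.Q := Fintype.ofFinite _
  have : Nonempty (A.used ↪ Fin (2 * t + 1)) := by
    apply Function.Embedding.nonempty_of_card_le
    simpa using hc
  obtain ⟨f⟩ := this
  refine ⟨fun q => if h : q ∈ A.used then f ⟨q, h⟩ else 0, ?_⟩
  intro p hp q hq hpq
  have hp' : p ∈ A.used := hp
  have hq' : q ∈ A.used := hq
  simp only [hp', hq', dif_pos] at hpq
  have := f.injective hpq
  simpa using this

theorem FA.path_map {α β : Type} (A : FA α) (e : A.Q → β) (he : Set.InjOn e A.used)
    (T' : β → α → β → Prop)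
    (hT : ∀ x a y, T' x a y ↔ ∃ p q, A.T p a q ∧ e p = x ∧ e q = y) :
    ∀ (w : List α) (p : A.Q), p ∈ A.used → ∀ y, RPath T' (e p) w y ↔
      ∃ q ∈ A.used, e q = y ∧ RPath A.T p w q := by
  intro w
  induction w with
  | nil =>
    intro p hp y
    simp only [RPath_nil]
    constructor
    · intro h; exact ⟨p, hp, h, rfl⟩
    · rintro ⟨q, _, h, h2⟩; rw [h2]; exact h
  | cons a w ih =>
    intro p hp y
    simp only [RPath_cons]
    constructor
    · rintro ⟨r, h1, h2⟩
      rw [hT] at h1
      obtain ⟨p', q', h3, h4, h5⟩ := h1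
      have hp' : p' = p := he (A.fst_mem_used h3) hp h4
      subst hp'
      subst h5
      rw [ih q' (A.snd_mem_used h3)] at h2
      obtain ⟨q, hq, h6, h7⟩ := h2
      exact ⟨q, hq, h6, q', h3, h7⟩
    · rintro ⟨q, hq, h6, q', h3, h7⟩
      refine ⟨e q', ?_, ?_⟩
      · rw [hT]; exact ⟨p, q', h3, rfl, rfl⟩
      · rw [ih q' (A.snd_mem_used h3)]
        exact ⟨q, hq, h6, h7⟩

end Pool.Agent.Work.MP_91c91a_lc
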