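import Pool.Agent.Work.MP_91c91a_lc.Relabel

set_option autoImplicit false

namespace Pool.Agent.Work.MP_91c91a_lc

open Finset

section TwoStep

variable {Γ : Type} [Fintype Γ] (n l : ℕ) (hl : 0 < l) (T : Fin n → Γ → Fin n → Prop)

/-- block index of a state -/
def blk (q : Fin n) : Fin (n / l + 1) := ⟨q.1 / l, Nat.lt_succ_of_le (Nat.div_le_div_right q.2.le)⟩

/-- position of a state in its block -/
def pos (q : Fin n) : Fin l := ⟨q.1 % l, Nat.mod_lt _ hl⟩

theorem blk_pos_inj {q q' : Fin n} (h1 : blk n l q = blk n l q') (h2 : pos n l hl q = pos n l hl q') :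
    q = q' := by
  unfold blk at h1; unfold pos at h2
  rw [Fin.mk.injEq] at h1 h2
  apply Fin.ext
  rw [← Nat.div_add_mod q.1 l, ← Nat.div_add_mod q'.1 l, h1, h2]

/-- two letter step -/
def two (b c : Γ) (q q' : Fin n) : Prop := ∃ x, T q b x ∧ T x c q'

/-- positions of the states of a block that reach `q'` by the two letters `b`, `c` -/
noncomputable def tgt (b c : Γ) (β : Fin (n / l + 1)) (q' : Fin n) : Finset (Fin l) := by
  classical
  exact univ.filter (fun r => ∃ q, blk n l q = β ∧ pos n l hl q = r ∧ two n T b c q q')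

omit [Fintype Γ] in
theorem pos_mem_tgt (b c : Γ) (q q' : Fin n) :
    pos n l hl q ∈ tgt n l hl T b c (blk n l q) q' ↔ two n T b c q q' := by
  classical
  unfold tgt
  rw [mem_filter]
  constructor
  · rintro ⟨_, x, h1, h2, h3⟩
    rwa [blk_pos_inj n l hl h1 h2] at h3
  · intro h
    exact ⟨mem_univ _, q, rfl, rfl, h⟩

/-- states of the sparse automaton -/
abbrev SQ (Γ : Type) (n l : ℕ) : Type :=
  Fin n ⊕ ((Γ × Γ × Fin (n / l + 1) × Finset (Fin l)) ⊕ Unit)

/-- transitions of the sparse automaton -/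
noncomputable def sδ (F : Set (Fin n)) : Finset (SQ Γ n l × Γ × SQ Γ n l) := by
  classical
  exact
    ((univ : Finset (Fin n × Γ × Γ × Finset (Fin l))).filter
        (fun t => pos n l hl t.1 ∈ t.2.2.2)).image
      (fun t => (Sum.inl t.1, t.2.1, Sum.inr (Sum.inl (t.2.1, t.2.2.1, blk n l t.1, t.2.2.2)))) ∪
    ((univ : Finset (Γ × Γ × Fin (n / l + 1) × Fin n)).image
      (fun t => (Sum.inr (Sum.inl (t.1, t.2.1, t.2.2.1, tgt n l hl T t.1 t.2.1 t.2.2.1 t.2.2.2)),
        t.2.1, Sum.inl t.2.2.2)) ∪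
    ((univ : Finset (Fin n × Γ)).filter (fun t => ∃ q' ∈ F, T t.1 t.2 q')).image
      (fun t => (Sum.inl t.1, t.2, Sum.inr (Sum.inr ()))))

theorem card_sδ (F : Set (Fin n)) :
    (sδ n l hl T F).card ≤ n * (Fintype.card Γ) ^ 2 * 2 ^ l +
      ((Fintype.card Γ) ^ 2 * (n / l + 1) * n + n * Fintype.card Γ) := by
  classical
  unfold sδ
  refine (card_union_le _ _).trans (Nat.add_le_add ?_ ((card_union_le _ _).trans
    (Nat.add_le_add ?_ ?_)))
  · refine card_image_le.trans ((card_filter_le _ _).trans ?_)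
    rw [card_univ]
    simp only [Fintype.card_prod, Fintype.card_fin, Fintype.card_finset]
    apply le_of_eq; ring
  · refine card_image_le.trans ?_
    rw [card_univ]
    simp only [Fintype.card_prod, Fintype.card_fin]
    apply le_of_eq; ring
  · refine card_image_le.trans ((card_filter_le _ _).trans ?_)
    rw [card_univ]
    simp only [Fintype.card_prod, Fintype.card_fin]
    exact le_rfl

theorem sδ_inl (F : Set (Fin n)) (q : Fin n) (b : Γ) (x : SQ Γ n l) :
    (Sum.inl q, b, x) ∈ sδ n l hl T F ↔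
      (∃ c S, pos n l hl q ∈ S ∧ x = Sum.inr (Sum.inl (b, c, blk n l q, S))) ∨
      ((∃ q' ∈ F, T q b q') ∧ x = Sum.inr (Sum.inr ())) := by
  classical
  unfold sδ
  simp only [mem_union, mem_image, mem_filter, mem_univ, true_and, Prod.exists, Prod.mk.injEq,
    Sum.inl.injEq, reduceCtorEq, false_and, exists_false, false_or, and_false]
  constructor
  · rintro (⟨q', b', c, S, h1, rfl, rfl, rfl⟩ | ⟨q', b', h1, rfl, rfl, rfl⟩)
    · exact Or.inl ⟨c, S, h1, rfl⟩
    · exact Or.inr ⟨h1, rfl⟩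
  · rintro (⟨c, S, h1, rfl⟩ | ⟨h1, rfl⟩)
    · exact Or.inl ⟨q, b, c, S, h1, rfl, rfl, rfl⟩
    · exact Or.inr ⟨q, b, h1, rfl, rfl, rfl⟩

theorem sδ_mid (F : Set (Fin n)) (b c : Γ) (β : Fin (n / l + 1)) (S : Finset (Fin l)) (c' : Γ)
    (x : SQ Γ n l) :
    (Sum.inr (Sum.inl (b, c, β, S)), c', x) ∈ sδ n l hl T F ↔
      c' = c ∧ ∃ q', S = tgt n l hl T b c β q' ∧ x = Sum.inl q' := by
  classical
  unfold sδ
  simp only [mem_union, mem_image, mem_filter, mem_univ, true_and, Prod.exists, Prod.mk.injEq,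
    Sum.inr.injEq, Sum.inl.injEq, reduceCtorEq, false_and, exists_false, false_or, and_false,
    or_false]
  constructor
  · rintro ⟨b', c'', β', q', ⟨rfl, rfl, rfl, rfl⟩, rfl, rfl⟩
    exact ⟨rfl, q', rfl, rfl⟩
  · rintro ⟨rfl, q', h, rfl⟩
    exact ⟨b, c', β, q', ⟨rfl, rfl, rfl, h.symm⟩, rfl, rfl⟩

theorem sδ_end (F : Set (Fin n)) (c' : Γ) (x : SQ Γ n l) :
    (Sum.inr (Sum.inr ()), c', x) ∉ sδ n l hl T F := by
  classical
  unfold sδ
  simp

/-- the sparse automaton -/
noncomputable def sparse (s : Fin n) (F : Set (Fin n)) : FA Γ where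
  Q := SQ Γ n l
  finQ := inferInstance
  start := Sum.inl s
  accept := {x | (∃ q ∈ F, x = Sum.inl q) ∨ x = Sum.inr (Sum.inr ())}
  δ := sδ n l hl T F

theorem acc_inl (s : Fin n) (F : Set (Fin n)) (q : Fin n) :
    (Sum.inl q : SQ Γ n l) ∈ (sparse n l hl T s F).accept ↔ q ∈ F := by
  constructor
  · rintro (⟨q', h, h2⟩ | h2)
    · have h3 : q = q' := Sum.inl_injective h2
      rw [h3]; exact h
    · exact absurd h2 (by simp)
  · intro h; exact Or.inl ⟨q, h, rfl⟩

theorem acc_mid (s : Fin n) (F : Set (Fin n)) (t : Γ × Γ × Fin (n / l + 1) × Finset (Fin l)) :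
    (Sum.inr (Sum.inl t) : SQ Γ n l) ∉ (sparse n l hl T s F).accept := by
  rintro (⟨q', h, h2⟩ | h2)
  · exact absurd h2 (by simp)
  · exact absurd (Sum.inr_injective h2) (by simp)

theorem sparse_key (s : Fin n) (F : Set (Fin n)) :
    ∀ (N : ℕ) (w : List Γ), w.length ≤ N → ∀ q : Fin n,
      (∃ x ∈ (sparse n l hl T s F).accept, RPath (sparse n l hl T s F).T (Sum.inl q) w x) ↔
      ∃ f ∈ F, RPath T q w f := by
  intro N
  induction N with
  | zero =>
    intro w hw q
    have : w = [] := List.length_eq_zero_iff.1 (Nat.le_zero.1 hw)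
    subst this
    constructor
    · rintro ⟨x, hx, h⟩
      rw [RPath_nil] at h
      subst h
      exact ⟨q, (acc_inl n l hl T s F q).1 hx, rfl⟩
    · rintro ⟨f, hf, h⟩
      rw [RPath_nil] at h
      subst h
      exact ⟨Sum.inl q, (acc_inl n l hl T s F q).2 hf, rfl⟩
  | succ N ih =>
    intro w hw q
    match w, hw with
    | [], _ => exact ih [] (Nat.zero_le _) q
    | [b], _ =>
      constructor
      · rintro ⟨x, hx, y, hy, hyx⟩
        rw [RPath_nil] at hyx
        subst hyx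
        have hy' := (sδ_inl n l hl T F q b y).1 hy
        rcases hy' with ⟨c, S, _, rfl⟩ | ⟨⟨q', hq', h⟩, rfl⟩
        · exact absurd hx (acc_mid n l hl T s F _)
        · exact ⟨q', hq', q', h, rfl⟩
      · rintro ⟨f, hf, y, hy, hyf⟩
        rw [RPath_nil] at hyf
        subst hyf
        refine ⟨Sum.inr (Sum.inr ()), Or.inr rfl, Sum.inr (Sum.inr ()), ?_, rfl⟩
        exact (sδ_inl n l hl T F q b _).2 (Or.inr ⟨⟨y, hf, hy⟩, rfl⟩)
    | b :: c :: w', hw =>
      have hw' : w'.length ≤ N := by simp only [List.length_cons] at hw; omega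
      constructor
      · rintro ⟨x, hx, y, hy, z, hz, hzx⟩
        have hy' := (sδ_inl n l hl T F q b y).1 hy
        rcases hy' with ⟨c', S, hS, rfl⟩ | ⟨_, rfl⟩
        · have hz' := (sδ_mid n l hl T F b c' (blk n l q) S c z).1 hz
          obtain ⟨rfl, q', hq', rfl⟩ := hz'
          rw [hq', pos_mem_tgt] at hS
          obtain ⟨u, hu1, hu2⟩ := hS
          obtain ⟨f, hf, hp⟩ := (ih w' hw' q').1 ⟨x, hx, hzx⟩
          exact ⟨f, hf, u, hu1, q', hu2, hp⟩
        · exact absurd hz (sδ_end n l hl T F c z)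
      · rintro ⟨f, hf, u, hu1, q', hu2, hp⟩
        obtain ⟨x, hx, hzx⟩ := (ih w' hw' q').2 ⟨f, hf, hp⟩
        refine ⟨x, hx, Sum.inr (Sum.inl (b, c, blk n l q, tgt n l hl T b c (blk n l q) q')), ?_,
          Sum.inl q', ?_, hzx⟩
        · exact (sδ_inl n l hl T F q b _).2
            (Or.inl ⟨c, _, (pos_mem_tgt n l hl T b c q q').2 ⟨u, hu1, hu2⟩, rfl⟩)
        · exact (sδ_mid n l hl T F b c _ _ c _).2 ⟨rfl, q', rfl, rfl⟩

theorem sparse_lang (s : Fin n) (F : Set (Fin n)) :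
    (sparse n l hl T s F).lang = {w | ∃ f ∈ F, RPath T s w f} := by
  ext w
  exact sparse_key n l hl T s F w.length w le_rfl s

end TwoStep

end Pool.Agent.Work.MP_91c91a_lc
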